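import Mathlib

/-! Definitions: bounded formulas, classes definable by a Sigma_1 formula with a parameter,
measurable cardinals and their limits, the sets `H(κ)`, well-orderings of sets. -/

set_option autoImplicit false

open Cardinal Ordinal

namespace Pool.Agent.X208.IU

universe u

/-- Formulas of the language of set theory with bounded quantifiers only and with free variables
`0, ..., n - 1`. In `bex i φ` (there is an element of the variable `i` with `φ`) the variable `0`
of `φ` is bound, and the variable `k + 1` of `φ` is the variable `k` of `bex i φ`. -/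
inductive BFml : ℕ → Type
  | mem {n : ℕ} (i j : Fin n) : BFml n
  | eq {n : ℕ} (i j : Fin n) : BFml n
  | neg {n : ℕ} (φ : BFml n) : BFml n
  | and {n : ℕ} (φ ψ : BFml n) : BFml n
  | bex {n : ℕ} (i : Fin n) (φ : BFml (n + 1)) : BFml n

/-- Truth of a bounded formula in the universe of sets. -/
def BFml.Sat : {n : ℕ} → BFml n → (Fin n → ZFSet.{u}) → Prop
  | _, .mem i j, v => v i ∈ v j
  | _, .eq i j, v => v i = v j
  | _, .neg φ, v => ¬ φ.Sat v
  | _, .and φ ψ, v => φ.Sat v ∧ ψ.Sat v
  | _, .bex i φ, v => ∃ a ∈ v i, φ.Sat (Fin.cons a v)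


/-- The class `X` is definable by a `Σ₁`-formula with the parameter `p`: for some bounded formula
`ψ(v₀, v₁, v₂, ..., v_{k+1})`, the set `x` is in `X` iff there are sets `y₀, ..., y_{k-1}` such
that `ψ(x, p, y₀, ..., y_{k-1})` holds in the universe of all sets. -/
def Sig1Def (X : ZFSet.{u} → Prop) (p : ZFSet.{u}) : Prop :=
  ∃ (k : ℕ) (ψ : BFml (k + 2)), ∀ x : ZFSet.{u},
    X x ↔ ∃ y : Fin k → ZFSet.{u}, ψ.Sat (Fin.cons x (Fin.cons p y))

/-- The binary relation `R` is definable by a `Σ₁`-formula with the parameter `p`: for some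
bounded formula `ψ(v₀, v₁, v₂, v₃, ..., v_{k+2})`, we have `R x y` iff there are sets
`z₀, ..., z_{k-1}` such that `ψ(x, y, p, z₀, ..., z_{k-1})` holds in the universe of all sets. -/
def Sig1DefRel (R : ZFSet.{u} → ZFSet.{u} → Prop) (p : ZFSet.{u}) : Prop :=
  ∃ (k : ℕ) (ψ : BFml (k + 3)), ∀ x y : ZFSet.{u},
    R x y ↔ ∃ z : Fin k → ZFSet.{u}, ψ.Sat (Fin.cons x (Fin.cons y (Fin.cons p z)))

/-- `c` is a measurable cardinal: it is uncountable and there is a `c`-complete nonprincipal
ultrafilter over it. -/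
def IsMeasurable (c : Cardinal.{u}) : Prop :=
  ℵ₀ < c ∧ ∃ U : Ultrafilter c.ord.ToType,
    (∀ S : Set (Set c.ord.ToType), #S < c → (∀ s ∈ S, s ∈ U) → ⋂₀ S ∈ U) ∧ ∀ a, {a} ∉ U

/-- `κ` is a limit of measurable cardinals: the measurable cardinals below `κ` are unbounded
in `κ`. -/
def IsLimitOfMeasurables (κ : Cardinal.{u}) : Prop :=
  κ ≠ 0 ∧ ∀ c < κ, ∃ l, c < l ∧ l < κ ∧ IsMeasurable l

/-- `x` is in `H(κ)`: it is a subset of a transitive set of cardinality less than `κ`, that is,
its transitive closure has cardinality less than `κ`. -/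
def InH (κ : Cardinal.{u}) (x : ZFSet.{u}) : Prop :=
  ∃ t : ZFSet.{u}, t.IsTransitive ∧ x ⊆ t ∧ t.card < κ

/-- `R` is a strict well-ordering of the set `D`. -/
structure IsStrictWO (D : Set ZFSet.{u}) (R : ZFSet.{u} → ZFSet.{u} → Prop) : Prop where
  field : ∀ a b, R a b → a ∈ D ∧ b ∈ D
  total : ∀ a ∈ D, ∀ b ∈ D, R a b ∨ a = b ∨ R b a
  trans : ∀ a b c, R a b → R b c → R a c
  wf : WellFounded R

/-- `R` is a well-ordering of the set `D`, in the strict or in the reflexive sense. -/
def IsWellOrdering (D : Set ZFSet.{u}) (R : ZFSet.{u} → ZFSet.{u} → Prop) : Prop :=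
  IsStrictWO D R ∨ ∃ S, IsStrictWO D S ∧ ∀ a b, R a b ↔ a ∈ D ∧ b ∈ D ∧ ¬ S b a

end Pool.Agent.X208.IU
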