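import Pool.Agent.X208.IU.Filt
import Pool.Agent.X208.IU.Defs

/-! The transitive collapse of the iterated ultrapower, and the theorem of Los for bounded
formulas. -/

set_option autoImplicit false
set_option linter.unusedSectionVars false

open Set Filter Cardinal

namespace Pool.Agent.X208.IU

universe u v

variable {I : Type u} [LinearOrder I] [WellFoundedLT I] {K : I → Type u}

/-- Functions into the universe of sets with finite support in `J`. -/
def Supp {Z : Sort*} (J : Set I) (f : (∀ i, K i) → Z) : Prop :=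
  ∃ s : Finset I, (s : Set I) ⊆ J ∧ DepOn (s : Set I) f

theorem Supp.mono {Z : Sort*} {J J' : Set I} (h : J ⊆ J') {f : (∀ i, K i) → Z} (hf : Supp J f) :
    Supp J' f := by
  obtain ⟨s, hs, hf⟩ := hf
  exact ⟨s, hs.trans h, hf⟩

theorem Supp.const {Z : Sort*} (J : Set I) (z : Z) : Supp J (fun _ : ∀ i, K i => z) :=
  ⟨∅, by simp, fun _ _ _ => rfl⟩

theorem Supp.comp {Y : Sort*} {Z : Sort*} {J : Set I} {f : (∀ i, K i) → Y} (hf : Supp J f)
    (g : Y → Z) : Supp J (fun b => g (f b)) := by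
  obtain ⟨s, hs, hf⟩ := hf
  exact ⟨s, hs, fun b b' h => by show g (f b) = g (f b'); rw [hf b b' h]⟩

theorem Supp.comp₂ {W : Sort*} {Y : Sort*} {Z : Sort*} {J : Set I} {f : (∀ i, K i) → W}
    {f' : (∀ i, K i) → Y} (hf : Supp J f) (hf' : Supp J f') (g : W → Y → Z) :
    Supp J (fun b => g (f b) (f' b)) := by
  classical
  obtain ⟨s, hs, hf⟩ := hf
  obtain ⟨s', hs', hf'⟩ := hf'
  refine ⟨s ∪ s', by rw [Finset.coe_union]; exact union_subset hs hs', fun b b' h => ?_⟩
  show g (f b) (f' b) = g (f b') (f' b')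
  rw [hf b b' fun i hi => h i (by simp [Finset.mem_coe.1 hi]),
    hf' b b' fun i hi => h i (by simp [Finset.mem_coe.1 hi])]

theorem Supp.pi {n : ℕ} {Z : Type*} {J : Set I} {f : Fin n → (∀ i, K i) → Z}
    (hf : ∀ k, Supp J (f k)) : Supp J (fun b k => f k b) := by
  classical
  choose s hs hf using hf
  refine ⟨Finset.univ.biUnion s, ?_, fun b b' h => ?_⟩
  · intro i hi
    simp only [Finset.coe_biUnion, mem_iUnion] at hi
    obtain ⟨k, _, hi⟩ := hi
    exact hs k hi
  · funext k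
    exact hf k b b' fun i hi => h i (by
      simp only [Finset.coe_biUnion, mem_iUnion]
      exact ⟨k, by simp, hi⟩)

variable {U : ∀ i, Ultrafilter (K i)}

theorem Supp.decides {J : Set I} {P : (∀ i, K i) → Prop} (hP : Supp J P) :
    (∀ᶠ b in Fl U, P b) ∨ ∀ᶠ b in Fl U, ¬ P b := by
  obtain ⟨s, _, hP⟩ := hP
  exact decides' s hP

theorem Supp.not_eventually {J : Set I} {P : (∀ i, K i) → Prop} (hP : Supp J P) :
    (¬ ∀ᶠ b in Fl U, P b) ↔ ∀ᶠ b in Fl U, ¬ P b := by
  constructor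
  · intro h; exact hP.decides.resolve_left h
  · intro h h'
    obtain ⟨b, hb⟩ := (h.and h').exists
    exact hb.1 hb.2

/-- Choice. -/
theorem Supp.choose {J : Set I} {Z : Type v} [Nonempty Z] {Q : (∀ i, K i) → Z → Prop}
    (hQ : Supp J Q) : ∃ h : (∀ i, K i) → Z, Supp J h ∧ ∀ b, (∃ z, Q b z) → Q b (h b) :=
  ⟨fun b => Classical.epsilon (Q b), hQ.comp _, fun _ hb => Classical.epsilon_spec hb⟩

variable (K) in
/-- The functions with finite support in `J`. -/
def Fn (J : Set I) : Type (u + 1) := {f : (∀ i, K i) → ZFSet.{u} // Supp J f}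

variable (U) in
/-- Membership modulo the filter. -/
def E {J : Set I} (g f : Fn K J) : Prop := ∀ᶠ b in Fl U, g.1 b ∈ f.1 b

/-- All ultrafilters are countably complete. -/
def CC (U : ∀ i, Ultrafilter (K i)) : Prop := ∀ i, CountableInterFilter (U i : Filter (K i))

theorem E_wf (hU : CC U) (J : Set I) : WellFounded (E U (J := J)) := by
  rw [wellFounded_iff_isEmpty_descending_chain]
  refine ⟨fun ⟨f, hf⟩ => ?_⟩
  have := countableInter hU
  have h : ∀ᶠ b in Fl U, ∀ n, (f (n + 1)).1 b ∈ (f n).1 b := eventually_countable_forall.2 hf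
  obtain ⟨b, hb⟩ := h.exists
  have := (wellFounded_iff_isEmpty_descending_chain.1 ZFSet.mem_wf.{u})
  exact this.false ⟨fun n => (f n).1 b, hb⟩

/-- values -/
noncomputable def Tset (f : (∀ i, K i) → ZFSet.{u}) : ZFSet.{u} :=
  insert ∅ (ZFSet.sUnion (ZFSet.range f))

/-- the index type of the collapse -/
def Idx (U : ∀ i, Ultrafilter (K i)) {J : Set I} (f : Fn K J) : Type (u + 1) :=
  {g : (∀ i, K i) → {y : ZFSet.{u} // y ∈ Tset f.1} //
    Supp J (fun b => (g b).1) ∧ ∀ᶠ b in Fl U, (g b).1 ∈ f.1 b}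

instance {J : Set I} (f : Fn K J) : Small.{u} (Idx U f) := by
  have h1 : Small.{u} (∀ i, K i) := inferInstance
  have h0 : Small.{u} {y : ZFSet.{u} // y ∈ Tset f.1} := ZFSet.small_coe _
  have h2 : Small.{u} ((∀ i, K i) → {y : ZFSet.{u} // y ∈ Tset f.1}) := small_Pi _
  exact @small_subtype _ h2 (fun g : (∀ i, K i) → {y : ZFSet.{u} // y ∈ Tset f.1} =>
    Supp J (fun b => (g b).1) ∧ ∀ᶠ b in Fl U, (g b).1 ∈ f.1 b)

/-- the collapse -/
noncomputable def col (hU : CC U) {J : Set I} : Fn K J → ZFSet.{u} :=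
  (E_wf hU J).fix fun f ih => ZFSet.range fun g : Idx U f => ih ⟨fun b => (g.1 b).1, g.2.1⟩ g.2.2

theorem col_eq (hU : CC U) {J : Set I} (f : Fn K J) :
    col hU f = ZFSet.range fun g : Idx U f => col hU (⟨fun b => (g.1 b).1, g.2.1⟩ : Fn K J) := by
  rw [col, WellFounded.fix_eq]

theorem mem_col (hU : CC U) {J : Set I} (f : Fn K J) :
    ∀ y, y ∈ col hU f ↔ ∃ g : Fn K J, E U g f ∧ col hU g = y := by
  classical
  induction f using (E_wf hU J).induction with
  | _ f ih =>
    intro y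
    rw [col_eq, ZFSet.mem_range]
    constructor
    · rintro ⟨g, rfl⟩
      exact ⟨⟨fun b => (g.1 b).1, g.2.1⟩, g.2.2, rfl⟩
    · rintro ⟨g, hg, rfl⟩
      have hT : ∀ b, g.1 b ∈ f.1 b → g.1 b ∈ Tset f.1 := fun b hb => by
        rw [Tset, ZFSet.mem_insert_iff, ZFSet.mem_sUnion]
        exact Or.inr ⟨f.1 b, ZFSet.mem_range.2 ⟨b, rfl⟩, hb⟩
      have h0 : (∅ : ZFSet.{u}) ∈ Tset f.1 := by
        rw [Tset, ZFSet.mem_insert_iff]; exact Or.inl rfl
      let g' : (∀ i, K i) → {y : ZFSet.{u} // y ∈ Tset f.1} := fun b =>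
        if h : g.1 b ∈ f.1 b then ⟨g.1 b, hT b h⟩ else ⟨∅, h0⟩
      have hg'v : ∀ b, (g' b).1 = if g.1 b ∈ f.1 b then g.1 b else ∅ := by
        intro b
        simp only [g']
        split_ifs <;> rfl
      have hg's : Supp J (fun b => (g' b).1) := by
        have : (fun b => (g' b).1) = fun b => if g.1 b ∈ f.1 b then g.1 b else ∅ := funext hg'v
        rw [this]
        exact g.2.comp₂ f.2 fun x y => if x ∈ y then x else ∅
      have hg'e : ∀ᶠ b in Fl U, (g' b).1 = g.1 b := by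
        filter_upwards [hg] with b hb
        rw [hg'v, if_pos hb]
      have hg'E : ∀ᶠ b in Fl U, (g' b).1 ∈ f.1 b := by
        filter_upwards [hg, hg'e] with b hb hb'
        rw [hb']; exact hb
      refine ⟨⟨g', hg's, hg'E⟩, ?_⟩
      ext y
      rw [ih ⟨fun b => (g' b).1, hg's⟩ hg'E, ih g hg]
      constructor
      · rintro ⟨h, h1, h2⟩
        refine ⟨h, ?_, h2⟩
        show ∀ᶠ b in Fl U, _
        filter_upwards [h1, hg'e] with b hb hb'
        have : h.1 b ∈ (g' b).1 := hb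
        rwa [hb'] at this
      · rintro ⟨h, h1, h2⟩
        refine ⟨h, ?_, h2⟩
        show ∀ᶠ b in Fl U, _
        filter_upwards [h1, hg'e] with b hb hb'
        show h.1 b ∈ (g' b).1
        rwa [hb']

theorem col_congr (hU : CC U) {J : Set I} {f g : Fn K J} (h : ∀ᶠ b in Fl U, f.1 b = g.1 b) :
    col hU f = col hU g := by
  ext y
  rw [mem_col, mem_col]
  constructor
  · rintro ⟨k, h1, h2⟩
    refine ⟨k, ?_, h2⟩
    show ∀ᶠ b in Fl U, _
    filter_upwards [h1, h] with b hb hb'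
    rw [← hb']; exact hb
  · rintro ⟨k, h1, h2⟩
    refine ⟨k, ?_, h2⟩
    show ∀ᶠ b in Fl U, _
    filter_upwards [h1, h] with b hb hb'
    rw [hb']; exact hb

theorem col_inj (hU : CC U) {J : Set I} (f : Fn K J) :
    ∀ g : Fn K J, col hU f = col hU g → ∀ᶠ b in Fl U, f.1 b = g.1 b := by
  induction f using (E_wf hU J).induction with
  | _ f ih =>
    intro g hfg
    by_contra hne
    have hsupp : Supp J fun b => f.1 b = g.1 b := f.2.comp₂ g.2 _
    rw [hsupp.not_eventually] at hne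
    -- a set in one but not in the other
    have hQ1 : Supp J fun b => ∃ y, y ∈ f.1 b ∧ y ∉ g.1 b :=
      f.2.comp₂ g.2 fun x z => ∃ y, y ∈ x ∧ y ∉ z
    rcases hQ1.decides (U := U) with h1 | h1
    · obtain ⟨k, hk, hk'⟩ := Supp.choose (Q := fun b y => y ∈ f.1 b ∧ y ∉ g.1 b)
        (f.2.comp₂ g.2 fun x z y => y ∈ x ∧ y ∉ z)
      have hkE : E U (⟨k, hk⟩ : Fn K J) f := by
        show ∀ᶠ b in Fl U, _
        filter_upwards [h1] with b hb
        exact (hk' b hb).1
      have h2 : col hU (⟨k, hk⟩ : Fn K J) ∈ col hU g := by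
        rw [← hfg, mem_col]; exact ⟨_, hkE, rfl⟩
      rw [mem_col] at h2
      obtain ⟨k', h3, h4⟩ := h2
      have h5 := ih _ hkE k' h4.symm
      obtain ⟨b, hb1, hb2, hb3⟩ := (h1.and (h3.and h5)).exists
      have hb3' : k b = k'.1 b := hb3
      exact (hk' b hb1).2 (by rw [hb3']; exact hb2)
    · have h1' : ∀ᶠ b in Fl U, ∃ y, y ∈ g.1 b ∧ y ∉ f.1 b := by
        filter_upwards [h1, hne] with b hb hb'
        by_contra hcon
        push Not at hcon hb
        exact hb' (ZFSet.ext fun y => ⟨fun hy => hb y hy, fun hy => hcon y hy⟩)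
      obtain ⟨k, hk, hk'⟩ := Supp.choose (Q := fun b y => y ∈ g.1 b ∧ y ∉ f.1 b)
        (g.2.comp₂ f.2 fun x z y => y ∈ x ∧ y ∉ z)
      have hkE : E U (⟨k, hk⟩ : Fn K J) g := by
        show ∀ᶠ b in Fl U, _
        filter_upwards [h1'] with b hb
        exact (hk' b hb).1
      have h2 : col hU (⟨k, hk⟩ : Fn K J) ∈ col hU f := by
        rw [hfg, mem_col]; exact ⟨_, hkE, rfl⟩
      rw [mem_col] at h2
      obtain ⟨k', h3, h4⟩ := h2
      have h5 := ih _ h3 _ h4
      obtain ⟨b, hb1, hb2, hb3⟩ := (h1'.and (h3.and h5)).exists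
      have hb3' : k'.1 b = k b := hb3
      exact (hk' b hb1).2 (by rw [← hb3']; exact hb2)

theorem col_mem_iff (hU : CC U) {J : Set I} {g f : Fn K J} : col hU g ∈ col hU f ↔ E U g f := by
  rw [mem_col]
  constructor
  · rintro ⟨k, h1, h2⟩
    have h3 := col_inj hU _ _ h2
    show ∀ᶠ b in Fl U, _
    filter_upwards [h1, h3] with b hb hb'
    rw [← hb']; exact hb
  · intro h; exact ⟨g, h, rfl⟩

theorem col_eq_iff (hU : CC U) {J : Set I} {g f : Fn K J} :
    col hU g = col hU f ↔ ∀ᶠ b in Fl U, g.1 b = f.1 b :=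
  ⟨col_inj hU _ _, col_congr hU⟩

/-! ### Bounded formulas -/

theorem sat_supp {n : ℕ} (φ : BFml n) {J : Set I} (v : Fin n → Fn K J) :
    Supp J (fun b => φ.Sat fun k => (v k).1 b) :=
  (Supp.pi (f := fun k => (v k).1) fun k => (v k).2).comp fun w => φ.Sat w

theorem los (hU : CC U) {J : Set I} {n : ℕ} (φ : BFml n) (v : Fin n → Fn K J) :
    (φ.Sat fun k => col hU (v k)) ↔ ∀ᶠ b in Fl U, φ.Sat fun k => (v k).1 b := by
  induction φ with
  | mem i j => exact col_mem_iff hU
  | eq i j => exact col_eq_iff hU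
  | neg φ ih =>
    show (¬ _) ↔ _
    rw [ih v, (sat_supp φ v).not_eventually]
    exact Iff.rfl
  | and φ ψ ih1 ih2 =>
    show (_ ∧ _) ↔ _
    rw [ih1 v, ih2 v, ← Filter.eventually_and]
    exact Iff.rfl
  | @bex n i φ ih =>
    show (∃ a ∈ col hU (v i), φ.Sat (Fin.cons a fun k => col hU (v k))) ↔ _
    have hcons : ∀ g : Fn K J, (Fin.cons (col hU g) fun k => col hU (v k)) =
        fun k => col hU ((Fin.cons g v : Fin (n + 1) → Fn K J) k) := by
      intro g; funext k
      refine Fin.cases ?_ (fun k => ?_) k <;> simp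
    have hcons' : ∀ (g : Fn K J) (b : ∀ i, K i), (Fin.cons (g.1 b) fun k => (v k).1 b) =
        fun k => ((Fin.cons g v : Fin (n + 1) → Fn K J) k).1 b := by
      intro g b; funext k
      refine Fin.cases ?_ (fun k => ?_) k <;> simp
    constructor
    · rintro ⟨a, ha, hφ⟩
      rw [mem_col] at ha
      obtain ⟨g, hg, rfl⟩ := ha
      rw [hcons g, ih] at hφ
      filter_upwards [hg, hφ] with b hb hb'
      refine ⟨g.1 b, hb, ?_⟩
      rw [hcons' g b]; exact hb'
    · intro h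
      have hv : Supp J (fun (b : ∀ i, K i) (k : Fin n) => (v k).1 b) :=
        Supp.pi (f := fun k => (v k).1) fun k => (v k).2
      obtain ⟨g, hg, hg'⟩ := Supp.choose
        (Q := fun b a => a ∈ (v i).1 b ∧ φ.Sat (Fin.cons a fun k => (v k).1 b))
        (hv.comp fun w a => a ∈ w i ∧ φ.Sat (Fin.cons a w))
      have h1 : ∀ᶠ b in Fl U, g b ∈ (v i).1 b ∧ φ.Sat (Fin.cons (g b) fun k => (v k).1 b) := by
        filter_upwards [h] with b hb
        exact hg' b hb
      let G : Fn K J := ⟨g, hg⟩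
      refine ⟨col hU G, ?_, ?_⟩
      · refine (col_mem_iff hU).2 ?_
        show ∀ᶠ b in Fl U, _
        filter_upwards [h1] with b hb
        exact hb.1
      · rw [hcons G, ih]
        filter_upwards [h1] with b hb
        rw [← hcons' G b]
        exact hb.2

end Pool.Agent.X208.IU
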