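import Pool.Agent.X208.IU.Col

/-! The embeddings of the universe given by iterated ultrapowers: elementary properties and
composition. -/

set_option autoImplicit false
set_option linter.unusedSectionVars false

open Set Filter Cardinal

namespace Pool.Agent.X208.IU

universe u v

variable {I : Type u} [LinearOrder I] [WellFoundedLT I] {K : I → Type u}
variable {U : ∀ i, Ultrafilter (K i)}

/-- functions with finite support -/
def mkFn {J : Set I} (f : (∀ i, K i) → ZFSet.{u}) (hf : Supp J f) : Fn K J := ⟨f, hf⟩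

/-- constant functions -/
def cst (K : I → Type u) (J : Set I) (x : ZFSet.{u}) : Fn K J := ⟨fun _ => x, Supp.const J x⟩

/-- The embedding. -/
noncomputable def emb (hU : CC U) (J : Set I) (x : ZFSet.{u}) : ZFSet.{u} := col hU (cst K J x)

theorem mem_emb (hU : CC U) {J : Set I} {x y : ZFSet.{u}} :
    y ∈ emb hU J x ↔ ∃ g : Fn K J, (∀ᶠ b in Fl U, g.1 b ∈ x) ∧ col hU g = y := mem_col hU _ _

theorem emb_mem (hU : CC U) {J : Set I} {x y : ZFSet.{u}} :
    emb hU J x ∈ emb hU J y ↔ x ∈ y := by
  rw [emb, emb, col_mem_iff]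
  constructor
  · intro h; obtain ⟨b, hb⟩ := Filter.Eventually.exists h; exact hb
  · intro h; exact Filter.Eventually.of_forall fun _ => h

theorem emb_inj (hU : CC U) {J : Set I} {x y : ZFSet.{u}} :
    emb hU J x = emb hU J y ↔ x = y := by
  rw [emb, emb, col_eq_iff]
  constructor
  · intro h; obtain ⟨b, hb⟩ := Filter.Eventually.exists h; exact hb
  · intro h; exact Filter.Eventually.of_forall fun _ => h

theorem emb_sat (hU : CC U) {J : Set I} {n : ℕ} (φ : BFml n) (v : Fin n → ZFSet.{u}) :
    (φ.Sat fun k => emb hU J (v k)) ↔ φ.Sat v := by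
  have := los hU (J := J) φ fun k => cst K J (v k)
  refine this.trans ?_
  constructor
  · intro h; obtain ⟨b, hb⟩ := Filter.Eventually.exists h; exact hb
  · intro h; exact Filter.Eventually.of_forall fun _ => h

/-- A function with finite support and values in a finite set is constant. -/
theorem exists_const_pair {J : Set I} (g : Fn K J) {x y : ZFSet.{u}}
    (h : ∀ᶠ b in Fl U, g.1 b = x ∨ g.1 b = y) :
    (∀ᶠ b in Fl U, g.1 b = x) ∨ ∀ᶠ b in Fl U, g.1 b = y := by
  rcases (g.2.comp (· = x)).decides (U := U) with h1 | h1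
  · exact Or.inl h1
  · right; filter_upwards [h, h1] with b hb hb'
    exact hb.resolve_left hb'

theorem emb_upair (hU : CC U) {J : Set I} {x y : ZFSet.{u}} :
    emb hU J ({x, y} : ZFSet.{u}) = {emb hU J x, emb hU J y} := by
  ext z
  rw [mem_emb, ZFSet.mem_pair]
  constructor
  · rintro ⟨g, hg, rfl⟩
    have h' : ∀ᶠ b in Fl U, g.1 b = x ∨ g.1 b = y := by
      filter_upwards [hg] with b hb
      exact ZFSet.mem_pair.1 hb
    rcases exists_const_pair g h' with h1 | h1
    · exact Or.inl (col_congr hU h1)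
    · exact Or.inr (col_congr hU h1)
  · rintro (rfl | rfl)
    · exact ⟨cst K J x, Filter.Eventually.of_forall fun _ => ZFSet.mem_pair.2 (Or.inl rfl), rfl⟩
    · exact ⟨cst K J y, Filter.Eventually.of_forall fun _ => ZFSet.mem_pair.2 (Or.inr rfl), rfl⟩

theorem emb_pair (hU : CC U) {J : Set I} {x y : ZFSet.{u}} :
    emb hU J (ZFSet.pair x y) = ZFSet.pair (emb hU J x) (emb hU J y) := by
  have h1 : ∀ z : ZFSet.{u}, ({z} : ZFSet.{u}) = {z, z} := fun z => by simp
  rw [ZFSet.pair, ZFSet.pair, emb_upair, emb_upair, h1 x, emb_upair, ← h1]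

/-- All ultrafilters of `J` are `μ`-complete. -/
def CompOn (U : ∀ i, Ultrafilter (K i)) (J : Set I) (μ : Cardinal.{u}) : Prop :=
  ∀ i ∈ J, ∀ S : Set (Set (K i)), #S < μ → (∀ s ∈ S, s ∈ U i) → ⋂₀ S ∈ U i

theorem Supp.exists_const {J : Set I} {μ : Cardinal.{u}} {Z : Type v}
    (hZ : Cardinal.lift.{u} #Z < Cardinal.lift.{v} μ) (hJ : CompOn U J μ)
    {h : (∀ i, K i) → Z} (hh : Supp J h) : ∃ z, ∀ᶠ b in Fl U, h b = z := by
  obtain ⟨t, ht, hh⟩ := hh
  exact IU.exists_const hZ hJ t ht h hh

theorem exists_const_mem {J : Set I} {μ : Cardinal.{u}} (hJ : CompOn U J μ) (g : Fn K J)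
    {x : ZFSet.{u}} (hx : x.card < μ) (h : ∀ᶠ b in Fl U, g.1 b ∈ x) :
    ∃ y ∈ x, ∀ᶠ b in Fl U, g.1 b = y := by
  obtain ⟨b0, hb0⟩ := h.exists
  have hne : Nonempty {y // y ∈ x} := ⟨⟨_, hb0⟩⟩
  have hh : Supp J fun b => Classical.epsilon fun z : {y // y ∈ x} => z.1 = g.1 b :=
    g.2.comp fun w => Classical.epsilon fun z : {y // y ∈ x} => z.1 = w
  obtain ⟨z, hz⟩ := hh.exists_const (U := U) (μ := μ) (by
    have h1 : #{y // y ∈ x} = lift.{u + 1, u} x.card := ZFSet.cardinalMk_coe_sort
    rw [h1, Cardinal.lift_lift]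
    exact Cardinal.lift_lt.2 hx) hJ
  refine ⟨z.1, z.2, ?_⟩
  filter_upwards [h, hz] with b hb hb'
  have := Classical.epsilon_spec (p := fun z : {y // y ∈ x} => z.1 = g.1 b) ⟨⟨_, hb⟩, rfl⟩
  rw [hb'] at this
  exact this.symm

/-- Hereditarily small sets are fixed. -/
theorem emb_fix (hU : CC U) {J : Set I} {μ : Cardinal.{u}} (hJ : CompOn U J μ) {t : ZFSet.{u}}
    (htr : t.IsTransitive) (ht : t.card < μ) : ∀ x : ZFSet.{u}, x ⊆ t → emb hU J x = x := by
  intro x
  induction x using ZFSet.inductionOn with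
  | _ x ih =>
    intro hx
    ext y
    rw [mem_emb]
    constructor
    · rintro ⟨g, hg, rfl⟩
      obtain ⟨q, hq, hgq⟩ := exists_const_mem hJ g ((ZFSet.card_mono hx).trans_lt ht) hg
      have h1 : col hU g = emb hU J q := col_congr hU hgq
      rw [h1, ih q hq (htr q (hx hq))]
      exact hq
    · intro hy
      refine ⟨cst K J y, Filter.Eventually.of_forall fun _ => hy, ?_⟩
      exact ih y hy (htr y (hx hy))

/-- coordinates in `s` from `b`, the others from `c` -/
noncomputable def mrg (s : Set I) (b c : ∀ i, K i) : ∀ i, K i :=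
  haveI := Classical.dec
  fun i => if i ∈ s then b i else c i

theorem mrg_mem {s : Set I} {b c : ∀ i, K i} {i : I} (hi : i ∈ s) : mrg s b c i = b i := by
  rw [mrg, if_pos hi]

theorem mrg_notMem {s : Set I} {b c : ∀ i, K i} {i : I} (hi : i ∉ s) : mrg s b c i = c i := by
  rw [mrg, if_neg hi]

theorem mrg_self (s : Set I) (b : ∀ i, K i) : mrg s b b = b := by
  funext i; by_cases hi : i ∈ s
  · rw [mrg_mem hi]
  · rw [mrg_notMem hi]

/-- Separation of supports. -/
theorem sep {B : Set I} {μ : Cardinal.{u}} (hB : CompOn U B μ) (s t : Finset I)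
    (ht : (t : Set I) ⊆ B) (hs : #(∀ i : s, K i) < μ) {Z : Type v} [Nonempty Z]
    (hZ : Cardinal.lift.{u} #Z < Cardinal.lift.{v} μ)
    (f : (∀ i, K i) → Z) (hf : DepOn ((s : Set I) ∪ t) f) :
    ∃ v : (∀ i, K i) → Z, DepOn (s : Set I) v ∧
      ∀ᶠ c in Fl U, ∀ b, f (mrg (s : Set I) b c) = v b := by
  classical
  have hdep : ∀ b, DepOn (t : Set I) fun c => f (mrg (s : Set I) b c) := by
    intro b c c' hcc
    refine hf _ _ fun i hi => ?_
    by_cases his : i ∈ (s : Set I)
    · rw [mrg_mem his, mrg_mem his]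
    · rw [mrg_notMem his, mrg_notMem his]; exact hcc i (hi.resolve_left his)
  have hsame : ∀ b b' : ∀ i, K i, (∀ i ∈ (s : Set I), b i = b' i) → ∀ c,
      mrg (s : Set I) b c = mrg (s : Set I) b' c := by
    intro b b' h c
    funext i
    by_cases his : i ∈ (s : Set I)
    · rw [mrg_mem his, mrg_mem his]; exact h i his
    · rw [mrg_notMem his, mrg_notMem his]
  let v : (∀ i, K i) → Z := fun b =>
    Classical.epsilon fun z => ∀ᶠ c in Fl U, f (mrg (s : Set I) b c) = z
  have hv : ∀ b, ∀ᶠ c in Fl U, f (mrg (s : Set I) b c) = v b := by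
    intro b
    exact Classical.epsilon_spec (p := fun z => ∀ᶠ c in Fl U, f (mrg (s : Set I) b c) = z)
      (IU.exists_const hZ hB t ht _ (hdep b))
  have hvdep : DepOn (s : Set I) v := by
    intro b b' h
    simp only [v]
    congr 1
    funext z
    simp only [hsame b b' h]
  refine ⟨v, hvdep, ?_⟩
  obtain ⟨b0⟩ := exists_point U
  let ex : (∀ i : s, K i) → (∀ i, K i) := fun x i => if h : i ∈ s then x ⟨i, h⟩ else b0 i
  have key := inter_mem_of_complete (U := U) (B := B) (μ := μ) (Z := ∀ i : s, K i)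
    (by simpa using hs) hB (fun x => {c | f (mrg (s : Set I) (ex x) c) = v (ex x)})
    (fun x => hv (ex x)) (fun x => by
      intro c c' h
      have := hdep (ex x) c c' fun i hi => h i (ht hi)
      simp only at this
      show (f (mrg (s : Set I) (ex x) c) = v (ex x)) = (f (mrg (s : Set I) (ex x) c') = v (ex x))
      rw [this])
  filter_upwards [key] with c hc b
  have h1 := mem_iInter.1 hc fun i => b i
  have h2 : ∀ i ∈ (s : Set I), ex (fun i => b i) i = b i := by
    intro i hi
    have : i ∈ s := hi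
    simp [ex, this]
  have h1' : f (mrg (s : Set I) (ex fun i => b i) c) = v (ex fun i => b i) := h1
  rw [hsame _ _ h2 c, hvdep _ _ h2] at h1'
  exact h1'

/-- Commuting quantifiers. -/
theorem fub {B : Set I} {μ : Cardinal.{u}} (hB : CompOn U B μ) (s t : Finset I)
    (ht : (t : Set I) ⊆ B) (hs : #(∀ i : s, K i) < μ) (hμ : ℵ₀ ≤ μ)
    (hst : Disjoint (s : Set I) (t : Set I))
    (P : (∀ i, K i) → (∀ i, K i) → Prop) (h1 : ∀ b, DepOn (t : Set I) fun c => P c b)
    (h2 : ∀ c, DepOn (s : Set I) (P c)) :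
    (∀ᶠ c in Fl U, ∀ᶠ b in Fl U, P c b) ↔ ∀ᶠ b in Fl U, P b b := by
  have hf : DepOn ((s : Set I) ∪ t) fun b => P b b := by
    intro b b' h
    show P b b = P b' b'
    have e1 : P b b = P b b' := h2 b b b' fun i hi => h i (Or.inl hi)
    have e2 : P b b' = P b' b' := h1 b' b b' fun i hi => h i (Or.inr hi)
    rw [e1, e2]
  obtain ⟨v, hv, hv'⟩ := sep hB s t ht hs (Z := Prop) (by
    rw [Cardinal.mk_Prop]
    simpa using ((Cardinal.natCast_lt_aleph0 (n := 2)).trans_le hμ)) _ hf
  have h3 : ∀ᶠ c in Fl U, ∀ b, P c b = v b := by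
    filter_upwards [hv'] with c hc b
    have := hc b
    rw [← this]
    have e1 : P (mrg (s : Set I) b c) (mrg (s : Set I) b c) = P c (mrg (s : Set I) b c) := by
      refine h1 _ _ _ fun i hi => ?_
      exact mrg_notMem fun hi' => Set.disjoint_left.1 hst hi' hi
    have e2 : P c (mrg (s : Set I) b c) = P c b := h2 c _ _ fun i hi => mrg_mem hi
    rw [e1, e2]
  have h4 : (∀ᶠ b in Fl U, P b b) ↔ ∀ᶠ b in Fl U, v b := by
    refine eventually_congr ?_
    filter_upwards [h3] with b hb
    rw [hb b]
  rw [h4]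
  constructor
  · intro h
    obtain ⟨c, hc, hc'⟩ := (h.and h3).exists
    filter_upwards [hc] with b hb
    rw [← hc' b]; exact hb
  · intro h
    filter_upwards [h3] with c hc
    filter_upwards [h] with b hb
    rw [hc b]; exact hb

theorem DepOn.union_left {Z : Sort*} {s t : Set I} {f : (∀ i, K i) → Z} (h : DepOn s f) :
    DepOn (s ∪ t) f := h.mono subset_union_left

/-- Composition of embeddings, general form. -/
theorem col_comp (hU : CC U) {A B : Set I} {ν μ : Cardinal.{u}} (hν : ℵ₀ ≤ ν)
    (hA : #A ≤ ν) (hK : ∀ i ∈ A, #(K i) ≤ ν) (hνμ : ν < μ) (hB : CompOn U B μ)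
    (hAB : Disjoint A B) (F : Fn K (A ∪ B)) :
    ∀ (Φ : (∀ i, K i) → Fn K A) (s : Finset I) (_ : (s : Set I) ⊆ A)
      (_ : ∀ c, DepOn (s : Set I) (Φ c).1) (hΦ : Supp B Φ) (_ : F.1 = fun b => (Φ b).1 b),
      col hU F = col hU (mkFn (fun c => col hU (Φ c)) (hΦ.comp _)) := by
  classical
  have hcard : ∀ s : Finset I, (s : Set I) ⊆ A → #(∀ i : s, K i) < μ := by
    intro s hs
    refine lt_of_le_of_lt ?_ hνμ
    rw [mk_pi]
    calc (Cardinal.prod fun i : s => #(K i)) ≤ Cardinal.prod fun _ : s => ν :=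
          prod_le_prod _ _ fun i => hK i (hs i.2)
      _ = ν ^ (#s : Cardinal.{u}) := by simp
      _ ≤ ν := by
          rw [Cardinal.mk_coe_finset]
          exact power_nat_le hν
  have hμ : ℵ₀ ≤ μ := hν.trans hνμ.le
  induction F using (E_wf hU (A ∪ B)).induction with
  | _ F ih =>
    intro Φ s hs hΦs hΦ hF
    obtain ⟨t, ht, hΦt⟩ := id hΦ
    ext y
    constructor
    · intro hy
      rw [mem_col] at hy
      obtain ⟨G, hG, rfl⟩ := hy
      obtain ⟨r, hr, hGr⟩ := id G.2
      let s' : Finset I := r.filter (· ∈ A)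
      let t' : Finset I := r.filter (· ∈ B)
      have hs' : (s' : Set I) ⊆ A := fun i hi => by
        have : i ∈ s' := hi
        exact (Finset.mem_filter.1 this).2
      have ht' : (t' : Set I) ⊆ B := fun i hi => by
        have : i ∈ t' := hi
        exact (Finset.mem_filter.1 this).2
      have hΨs : ∀ c, DepOn (s' : Set I) fun b => G.1 (mrg (s' : Set I) b c) := by
        intro c b b' h
        have : mrg (s' : Set I) b c = mrg (s' : Set I) b' c := by
          funext i
          by_cases hi : i ∈ (s' : Set I)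
          · rw [mrg_mem hi, mrg_mem hi]; exact h i hi
          · rw [mrg_notMem hi, mrg_notMem hi]
        show G.1 _ = G.1 _
        rw [this]
      let Ψ : (∀ i, K i) → Fn K A := fun c =>
        ⟨fun b => G.1 (mrg (s' : Set I) b c), ⟨s', hs', hΨs c⟩⟩
      have hΨt : DepOn (t' : Set I) Ψ := by
        intro c c' h
        apply Subtype.ext
        funext b
        show G.1 _ = G.1 _
        refine hGr _ _ fun i hi => ?_
        by_cases his : i ∈ (s' : Set I)
        · rw [mrg_mem his, mrg_mem his]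
        · rw [mrg_notMem his, mrg_notMem his]
          refine h i ?_
          have hir : i ∈ r := hi
          have : i ∉ A := fun hA' => his (by
            have : i ∈ s' := Finset.mem_filter.2 ⟨hir, hA'⟩
            exact this)
          have : i ∈ t' := Finset.mem_filter.2 ⟨hir, (hr hi).resolve_left this⟩
          exact this
      have hΨ : Supp B Ψ := ⟨t', ht', hΨt⟩
      have e1 := ih G hG Ψ s' hs' hΨs hΨ (by
        funext b
        show G.1 b = G.1 (mrg (s' : Set I) b b)
        rw [mrg_self])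
      rw [e1, col_mem_iff]
      show ∀ᶠ c in Fl U, col hU (Ψ c) ∈ col hU (Φ c)
      have h5 := (fub hB (s ∪ s') (t ∪ t') (by
          rw [Finset.coe_union]; exact union_subset ht ht') (hcard _ (by
          rw [Finset.coe_union]; exact union_subset hs hs')) hμ (by
          rw [Finset.coe_union, Finset.coe_union]
          exact hAB.mono (union_subset hs hs') (union_subset ht ht'))
          (fun c b => (Ψ c).1 b ∈ (Φ c).1 b) (fun b c c' h => by
            show ((Ψ c).1 b ∈ (Φ c).1 b) = ((Ψ c').1 b ∈ (Φ c').1 b)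
            rw [hΦt c c' fun i hi => h i (by rw [Finset.coe_union]; exact Or.inl hi),
              hΨt c c' fun i hi => h i (by rw [Finset.coe_union]; exact Or.inr hi)])
          (fun c b b' h => by
            show ((Ψ c).1 b ∈ (Φ c).1 b) = ((Ψ c).1 b' ∈ (Φ c).1 b')
            have q1 : (Φ c).1 b = (Φ c).1 b' :=
              hΦs c b b' fun i hi => h i (by rw [Finset.coe_union]; exact Or.inl hi)
            have q2 : (Ψ c).1 b = (Ψ c).1 b' :=
              hΨs c b b' fun i hi => h i (by rw [Finset.coe_union]; exact Or.inr hi)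
            rw [q1, q2])).2 (by
          have hG' : ∀ᶠ b in Fl U, G.1 b ∈ F.1 b := hG
          filter_upwards [hG'] with b hb
          show G.1 (mrg (s' : Set I) b b) ∈ (Φ b).1 b
          rw [mrg_self]
          rw [hF] at hb
          exact hb)
      filter_upwards [h5] with c hc
      exact (col_mem_iff hU).2 hc
    · intro hy
      rw [mem_col] at hy
      obtain ⟨h, hh, rfl⟩ := hy
      have hh' : ∀ᶠ c in Fl U, h.1 c ∈ col hU (Φ c) := hh
      have hne : Nonempty (Fn K A) := ⟨cst K A ∅⟩
      let Ψ0 : (∀ i, K i) → Fn K A := fun c =>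
        Classical.epsilon fun g : Fn K A => E U g (Φ c) ∧ col hU g = h.1 c
      have hΨ0 : Supp B Ψ0 := hΦ.comp₂ h.2 fun φ w =>
        Classical.epsilon fun g : Fn K A => E U g φ ∧ col hU g = w
      have hΨ0' : ∀ᶠ c in Fl U, E U (Ψ0 c) (Φ c) ∧ col hU (Ψ0 c) = h.1 c := by
        filter_upwards [hh'] with c hc
        rw [mem_col] at hc
        exact Classical.epsilon_spec (p := fun g : Fn K A => E U g (Φ c) ∧ col hU g = h.1 c) hc
      -- uniform support
      have hfs : ∀ g : Fn K A, ∃ r : Finset A, DepOn ((r.map (Function.Embedding.subtype _) :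
          Finset I) : Set I) g.1 := by
        intro g
        obtain ⟨r, hr, hg⟩ := g.2
        refine ⟨r.subtype (· ∈ A), hg.mono fun i hi => ?_⟩
        rw [Finset.coe_map]
        have hir : i ∈ r := hi
        exact ⟨⟨i, hr hi⟩, by simpa using hir, rfl⟩
      have hsig : Supp B fun c => Classical.epsilon fun r : Finset A =>
          DepOn ((r.map (Function.Embedding.subtype _) : Finset I) : Set I) (Ψ0 c).1 :=
        hΨ0.comp fun g => Classical.epsilon fun r : Finset A =>
          DepOn ((r.map (Function.Embedding.subtype _) : Finset I) : Set I) g.1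
      obtain ⟨r, hr⟩ := hsig.exists_const (U := U) (μ := μ) (by
        rw [Cardinal.lift_id, Cardinal.lift_id]
        rcases finite_or_infinite A with hfin | hinf
        · exact (Cardinal.mk_lt_aleph0 (α := Finset A)).trans_le hμ
        · rw [mk_finset_of_infinite]; exact hA.trans_lt hνμ) hB
      let s' : Finset I := r.map (Function.Embedding.subtype _)
      have hs' : (s' : Set I) ⊆ A := by
        intro i hi
        have : i ∈ s' := hi
        obtain ⟨a, _, rfl⟩ := Finset.mem_map.1 this
        exact a.2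
      have hr' : ∀ᶠ c in Fl U, DepOn (s' : Set I) (Ψ0 c).1 := by
        filter_upwards [hr] with c hc
        have := Classical.epsilon_spec (p := fun r : Finset A =>
          DepOn ((r.map (Function.Embedding.subtype _) : Finset I) : Set I) (Ψ0 c).1) (hfs _)
        rw [hc] at this
        exact this
      let Ψ : (∀ i, K i) → Fn K A := fun c =>
        if DepOn (s' : Set I) (Ψ0 c).1 then Ψ0 c else cst K A ∅
      have hΨ : Supp B Ψ := hΨ0.comp fun g : Fn K A =>
        if DepOn (s' : Set I) g.1 then g else cst K A ∅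
      have hΨs : ∀ c, DepOn (s' : Set I) (Ψ c).1 := by
        intro c
        simp only [Ψ]
        split_ifs with hc
        · exact hc
        · exact fun _ _ _ => rfl
      have hΨe : ∀ᶠ c in Fl U, Ψ c = Ψ0 c := by
        filter_upwards [hr'] with c hc
        simp only [Ψ, if_pos hc]
      obtain ⟨t', ht', hΨt⟩ := id hΨ
      let G : Fn K (A ∪ B) := ⟨fun b => (Ψ b).1 b, s' ∪ t', by
          rw [Finset.coe_union]; exact union_subset_union hs' ht', fun b b' h' => by
        show (Ψ b).1 b = (Ψ b').1 b'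
        rw [hΨt b b' fun i hi => h' i (by rw [Finset.coe_union]; exact Or.inr hi)]
        exact hΨs b' b b' fun i hi => h' i (by rw [Finset.coe_union]; exact Or.inl hi)⟩
      have hGE : E U G F := by
        have h5 := (fub hB (s ∪ s') (t ∪ t') (by
          rw [Finset.coe_union]; exact union_subset ht ht') (hcard _ (by
          rw [Finset.coe_union]; exact union_subset hs hs')) hμ (by
          rw [Finset.coe_union, Finset.coe_union]
          exact hAB.mono (union_subset hs hs') (union_subset ht ht'))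
          (fun c b => (Ψ c).1 b ∈ (Φ c).1 b) (fun b c c' h => by
            show ((Ψ c).1 b ∈ (Φ c).1 b) = ((Ψ c').1 b ∈ (Φ c').1 b)
            rw [hΦt c c' fun i hi => h i (by rw [Finset.coe_union]; exact Or.inl hi),
              hΨt c c' fun i hi => h i (by rw [Finset.coe_union]; exact Or.inr hi)])
          (fun c b b' h => by
            show ((Ψ c).1 b ∈ (Φ c).1 b) = ((Ψ c).1 b' ∈ (Φ c).1 b')
            have q1 : (Φ c).1 b = (Φ c).1 b' :=
              hΦs c b b' fun i hi => h i (by rw [Finset.coe_union]; exact Or.inl hi)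
            have q2 : (Ψ c).1 b = (Ψ c).1 b' :=
              hΨs c b b' fun i hi => h i (by rw [Finset.coe_union]; exact Or.inr hi)
            rw [q1, q2])).1 (by
          filter_upwards [hΨ0', hΨe] with c hc hc'
          rw [hc']
          exact hc.1)
        show ∀ᶠ b in Fl U, (Ψ b).1 b ∈ F.1 b
        rw [hF]
        exact h5
      have e1 := ih G hGE Ψ s' hs' hΨs hΨ rfl
      have e2 : col hU h = col hU G := by
        rw [e1]
        refine col_congr hU ?_
        filter_upwards [hΨ0', hΨe] with c hc hc'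
        show h.1 c = col hU (Ψ c)
        rw [hc', hc.2]
      rw [e2, col_mem_iff]
      exact hGE

/-- Composition of embeddings. -/
theorem emb_comp (hU : CC U) {A B : Set I} {ν μ : Cardinal.{u}} (hν : ℵ₀ ≤ ν)
    (hA : #A ≤ ν) (hK : ∀ i ∈ A, #(K i) ≤ ν) (hνμ : ν < μ) (hB : CompOn U B μ)
    (hAB : Disjoint A B) (x : ZFSet.{u}) :
    emb hU B (emb hU A x) = emb hU (A ∪ B) x := by
  have := col_comp hU hν hA hK hνμ hB hAB (cst K (A ∪ B) x) (fun _ => cst K A x) ∅ (by simp)
    (fun _ _ _ _ => rfl) (Supp.const B _) rfl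
  exact this.symm

end Pool.Agent.X208.IU
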