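import Mathlib

/-! The filter of an iteration of ultrafilters along a well-order, with finite supports. -/

set_option autoImplicit false
set_option linter.unusedSectionVars false

open Set Filter Cardinal

namespace Pool.Agent.X208.IU

universe u v

section

variable {I : Type u} {K : I → Type u}

/-- The values of `f` only depend on the coordinates in `s`. -/
def DepOn {Z : Sort*} (s : Set I) (f : (∀ i, K i) → Z) : Prop :=
  ∀ b b' : ∀ i, K i, (∀ i ∈ s, b i = b' i) → f b = f b'

theorem DepOn.mono {Z : Sort*} {s t : Set I} {f : (∀ i, K i) → Z} (h : DepOn s f) (hst : s ⊆ t) :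
    DepOn t f := fun b b' hb => h b b' fun i hi => hb i (hst hi)

theorem exists_point (U : ∀ i, Ultrafilter (K i)) : Nonempty (∀ i, K i) :=
  ⟨fun i => ((U i).nonempty_of_mem Filter.univ_mem).some⟩

/-- choose an element -/
noncomputable def pk (U : ∀ i, Ultrafilter (K i)) (i : I) (s : Set (K i)) : K i :=
  haveI := Classical.dec
  if h : s.Nonempty then h.some else (exists_point U).some i

theorem pk_mem (U : ∀ i, Ultrafilter (K i)) (i : I) {s : Set (K i)} (h : s.Nonempty) :
    pk U i s ∈ s := by
  rw [pk, dif_pos h]; exact h.some_mem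

end

variable {I : Type u} [LinearOrder I] [WellFoundedLT I] {K : I → Type u}

/-- Strategies: at the coordinate `i` a set in `U i` is chosen, which depends on the coordinates
below `i`. -/
structure Strat (U : ∀ i, Ultrafilter (K i)) where
  S : ∀ i, (∀ i, K i) → Set (K i)
  dep : ∀ i b b', (∀ j < i, b j = b' j) → S i b = S i b'
  mem : ∀ i b, S i b ∈ U i

variable {U : ∀ i, Ultrafilter (K i)}

/-- `b` follows the strategy. -/
def Strat.Fol (σ : Strat U) (b : ∀ i, K i) : Prop := ∀ i, b i ∈ σ.S i b

/-- one step of filling -/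
noncomputable def fillStep (σ : Strat U) (B : Set I) (b : ∀ i, K i) (i : I)
    (ih : ∀ j, j < i → K j) : K i :=
  haveI := Classical.dec
  if i ∈ B then b i else
      pk U i (σ.S i fun j => if h : j < i then ih j h else (exists_point U).some j)

/-- Fill the coordinates outside `B` following `σ`. -/
noncomputable def fill (σ : Strat U) (B : Set I) (b : ∀ i, K i) : ∀ i, K i :=
  (wellFounded_lt (α := I)).fix (fillStep σ B b)

theorem fill_eq (σ : Strat U) (B : Set I) (b : ∀ i, K i) (i : I) :
    fill σ B b i = fillStep σ B b i fun j _ => fill σ B b j := by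
  rw [fill, WellFounded.fix_eq]

theorem fill_of_mem (σ : Strat U) {B : Set I} (b : ∀ i, K i) {i : I} (hi : i ∈ B) :
    fill σ B b i = b i := by
  rw [fill_eq, fillStep, if_pos hi]

theorem fill_of_notMem (σ : Strat U) {B : Set I} (b : ∀ i, K i) {i : I} (hi : i ∉ B) :
    fill σ B b i = pk U i (σ.S i (fill σ B b)) := by
  classical
  rw [fill_eq, fillStep, if_neg hi]
  congr 1
  apply σ.dep
  intro j hj
  simp [hj]

theorem fill_mem (σ : Strat U) {B : Set I} (b : ∀ i, K i) {i : I} (hi : i ∉ B) :
    fill σ B b i ∈ σ.S i (fill σ B b) := by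
  rw [fill_of_notMem σ b hi]
  exact pk_mem U i ((U i).nonempty_of_mem (σ.mem i _))

theorem fill_dep (σ : Strat U) (B : Set I) (b b' : ∀ i, K i) (i : I)
    (h : ∀ j ≤ i, b j = b' j) : fill σ B b i = fill σ B b' i := by
  induction i using WellFoundedLT.induction with
  | ind i ih =>
    by_cases hi : i ∈ B
    · rw [fill_of_mem σ b hi, fill_of_mem σ b' hi]; exact h i le_rfl
    · rw [fill_of_notMem σ b hi, fill_of_notMem σ b' hi]
      congr 1
      apply σ.dep
      intro j hj
      exact ih j hj fun k hk => h k (hk.trans hj.le)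

/-- The intersection of two strategies. -/
def Strat.inter (σ τ : Strat U) : Strat U where
  S i b := σ.S i b ∩ τ.S i b
  dep i b b' h := by rw [σ.dep i b b' h, τ.dep i b b' h]
  mem i b := (U i).inter_mem (σ.mem i b) (τ.mem i b)

/-- The trivial strategy. -/
def Strat.top : Strat U where
  S _ _ := Set.univ
  dep _ _ _ _ := rfl
  mem _ _ := Filter.univ_mem

variable (U) in
/-- The filter of the iteration. -/
def Fl : Filter (∀ i, K i) where
  sets := {A | ∃ σ : Strat U, ∀ b, σ.Fol b → b ∈ A}
  univ_sets := ⟨Strat.top, fun _ _ => trivial⟩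
  sets_of_superset := by
    rintro A B ⟨σ, hσ⟩ hAB
    exact ⟨σ, fun b hb => hAB (hσ b hb)⟩
  inter_sets := by
    rintro A B ⟨σ, hσ⟩ ⟨τ, hτ⟩
    exact ⟨σ.inter τ, fun b hb => ⟨hσ b fun i => (hb i).1, hτ b fun i => (hb i).2⟩⟩

theorem mem_Fl {A : Set (∀ i, K i)} : A ∈ Fl U ↔ ∃ σ : Strat U, ∀ b, σ.Fol b → b ∈ A := Iff.rfl

theorem exists_fol (σ : Strat U) : ∃ b, σ.Fol b :=
  ⟨fill σ ∅ (exists_point U).some, fun _ => fill_mem σ _ (Set.notMem_empty _)⟩

instance : (Fl U).NeBot := by
  refine Filter.neBot_iff.2 fun h => ?_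
  have h' : (∅ : Set (∀ i, K i)) ∈ Fl U := by rw [h]; exact Filter.mem_bot
  obtain ⟨σ, hσ⟩ := h'
  obtain ⟨b, hb⟩ := exists_fol σ
  exact hσ b hb

/-- If all `U i` are countably complete, so is the filter of the iteration. -/
theorem countableInter (hU : ∀ i, CountableInterFilter (U i : Filter (K i))) :
    CountableInterFilter (Fl U) := by
  refine ⟨fun S hS h => ?_⟩
  have h' : ∀ A : S, ∃ σ : Strat U, ∀ b, σ.Fol b → b ∈ A.1 := fun A => h A.1 A.2
  choose σ hσ using h'
  have : Countable S := hS
  refine ⟨⟨fun i b => ⋂ A : S, (σ A).S i b, fun i b b' hb => ?_, fun i b => ?_⟩, ?_⟩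
  · exact iInter_congr fun A => (σ A).dep i b b' hb
  · have := hU i
    exact (countable_iInter_mem (l := (U i : Filter (K i)))).2 fun A => (σ A).mem i b
  · intro b hb
    refine mem_sInter.2 fun A hA => hσ ⟨A, hA⟩ b fun i => ?_
    exact mem_iInter.1 (hb i) ⟨A, hA⟩

/-- A set in the filter which depends only on the coordinates in `B` has a strategy which is
trivial outside `B`. -/
theorem restrict {B : Set I} {A : Set (∀ i, K i)} (hA : A ∈ Fl U) (hB : DepOn B (· ∈ A)) :
    ∃ σ : Strat U, (∀ i ∉ B, ∀ b, σ.S i b = Set.univ) ∧ ∀ b, σ.Fol b → b ∈ A := by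
  classical
  obtain ⟨σ, hσ⟩ := hA
  refine ⟨⟨fun i b => if i ∈ B then σ.S i (fill σ B b) else Set.univ, fun i b b' h => ?_,
    fun i b => ?_⟩, fun i hi b => if_neg hi, ?_⟩
  · split_ifs
    · exact σ.dep i _ _ fun j hj => fill_dep σ B b b' j fun k hk => h k (hk.trans_lt hj)
    · rfl
  · split_ifs
    · exact σ.mem i _
    · exact Filter.univ_mem
  · intro b hb
    have h1 : σ.Fol (fill σ B b) := by
      intro i
      by_cases hi : i ∈ B
      · have := hb i
        simp only [hi, if_true] at this
        rw [fill_of_mem σ b hi]; exact this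
      · exact fill_mem σ b hi
    have h2 := hσ _ h1
    have h3 := hB (fill σ B b) b fun i hi => fill_of_mem σ b hi
    exact (iff_of_eq h3).1 h2

/-- Completeness of the filter for sets with support in `B`. -/
theorem inter_mem_of_complete {B : Set I} {μ : Cardinal.{u}} {Z : Type v}
    (hZ : Cardinal.lift.{u} #Z < Cardinal.lift.{v} μ)
    (hcomp : ∀ i ∈ B, ∀ S : Set (Set (K i)), #S < μ → (∀ s ∈ S, s ∈ U i) → ⋂₀ S ∈ U i)
    (A : Z → Set (∀ i, K i)) (hA : ∀ z, A z ∈ Fl U) (hB : ∀ z, DepOn B (· ∈ A z)) :
    (⋂ z, A z) ∈ Fl U := by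
  classical
  choose σ h1 h2 using fun z => restrict (hA z) (hB z)
  refine ⟨⟨fun i b => ⋂ z, (σ z).S i b, fun i b b' hb => ?_, fun i b => ?_⟩, ?_⟩
  · exact iInter_congr fun z => (σ z).dep i b b' hb
  · by_cases hi : i ∈ B
    · have h3 : (⋂ z, (σ z).S i b) = ⋂₀ (Set.range fun z => (σ z).S i b) := by
        rw [sInter_range]
      rw [h3]
      refine hcomp i hi _ ?_ ?_
      · have h4 := Cardinal.mk_range_le_lift (f := fun z => (σ z).S i b)
        rw [← Cardinal.lift_lt.{u, v}]
        exact (h4.trans_lt hZ)
      · rintro _ ⟨z, rfl⟩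
        exact (σ z).mem i b
    · have h3 : (⋂ z, (σ z).S i b) = Set.univ := by
        rw [iInter_eq_univ]; exact fun z => h1 z i hi b
      rw [h3]; exact Filter.univ_mem
  · intro b hb
    refine mem_iInter.2 fun z => h2 z b fun i => mem_iInter.1 (hb i) z

/-- Finite support: sets are decided by the filter. -/
theorem decides (s : Finset I) (A : Set (∀ i, K i)) (hA : DepOn (s : Set I) (· ∈ A)) :
    A ∈ Fl U ∨ Aᶜ ∈ Fl U := by
  classical
  induction s using Finset.induction_on_min generalizing A with
  | empty =>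
    obtain ⟨b0⟩ := exists_point U
    by_cases h : b0 ∈ A
    · left
      refine Filter.mem_of_superset Filter.univ_mem fun b _ => ?_
      exact (iff_of_eq (hA b0 b (by simp))).1 h
    · right
      refine Filter.mem_of_superset Filter.univ_mem fun b _ => ?_
      exact fun hb => h ((iff_of_eq (hA b0 b (by simp))).2 hb)
  | insert i s hi ih =>
    have key : ∀ A : Set (∀ i, K i), DepOn ((insert i s : Finset I) : Set I) (· ∈ A) →
        {a | Function.update (exists_point U).some i a ∈ A ∨ True} = Set.univ →
        {a : K i | {b | Function.update b i a ∈ A} ∈ Fl U} ∈ U i → A ∈ Fl U := by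
      intro A hA _ hmem
      have hdep : ∀ a, DepOn (s : Set I) (· ∈ {b | Function.update b i a ∈ A}) := by
        intro a b b' hb
        refine hA _ _ fun j hj => ?_
        rcases eq_or_ne j i with rfl | hj'
        · simp
        · rw [Function.update_of_ne hj', Function.update_of_ne hj']
          refine hb j ?_
          have : j ∈ insert i s := by exact_mod_cast hj
          exact_mod_cast (Finset.mem_insert.1 this).resolve_left hj'
      have hch : ∀ a : K i, ∃ σ : Strat U, {b | Function.update b i a ∈ A} ∈ Fl U →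
          (∀ j ∉ (s : Set I), ∀ b, σ.S j b = Set.univ) ∧
            ∀ b, σ.Fol b → Function.update b i a ∈ A := by
        intro a
        by_cases h : {b | Function.update b i a ∈ A} ∈ Fl U
        · obtain ⟨σ, h1, h2⟩ := restrict h (hdep a)
          exact ⟨σ, fun _ => ⟨h1, h2⟩⟩
        · exact ⟨Strat.top, fun h' => absurd h' h⟩
      choose σ hσ using hch
      refine ⟨⟨fun j b => if j = i then {a : K j | ∃ h : j = i,
            {b | Function.update b i (h ▸ a) ∈ A} ∈ Fl U} else
          if i < j then (σ (b i)).S j b else Set.univ, fun j b b' h => ?_, fun j b => ?_⟩, ?_⟩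
      · split_ifs with h1 h2
        · rfl
        · rw [h i h2]; exact (σ (b' i)).dep j b b' h
        · rfl
      · split_ifs with h1 h2
        · subst h1
          simpa using hmem
        · exact (σ (b i)).mem j b
        · exact Filter.univ_mem
      · intro b hb
        have h1 : {b' | Function.update b' i (b i) ∈ A} ∈ Fl U := by
          have := hb i
          simpa using this
        obtain ⟨h2, h3⟩ := hσ (b i) h1
        have h4 : (σ (b i)).Fol b := by
          intro j
          by_cases hj : j ∈ (s : Set I)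
          · have hij : i < j := hi j (by exact_mod_cast hj)
            have := hb j
            simpa [hij.ne', hij] using this
          · rw [h2 j hj]; trivial
        have h5 := h3 b h4
        rwa [Function.update_eq_self] at h5
    have hdep : ∀ a, DepOn (s : Set I) (· ∈ {b | Function.update b i a ∈ A}) := by
      intro a b b' hb
      refine hA _ _ fun j hj => ?_
      rcases eq_or_ne j i with rfl | hj'
      · simp
      · rw [Function.update_of_ne hj', Function.update_of_ne hj']
        refine hb j ?_
        have : j ∈ insert i s := by exact_mod_cast hj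
        exact_mod_cast (Finset.mem_insert.1 this).resolve_left hj'
    by_cases h : {a : K i | {b | Function.update b i a ∈ A} ∈ Fl U} ∈ U i
    · left; exact key A hA (by simp) h
    · right
      refine key Aᶜ (fun b b' hb => ?_) (by simp) ?_
      · have := hA b b' hb
        exact propext (not_congr (iff_of_eq this))
      · have h' := Ultrafilter.compl_mem_iff_notMem.2 h
        refine (U i).mem_of_superset h' fun a ha => ?_
        exact (ih _ (hdep a)).resolve_left ha

theorem decides' (s : Finset I) {P : (∀ i, K i) → Prop} (hP : DepOn (s : Set I) P) :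
    (∀ᶠ b in Fl U, P b) ∨ ∀ᶠ b in Fl U, ¬ P b :=
  decides s {b | P b} hP

/-- Functions with finite support in `B` and few values are constant almost everywhere. -/
theorem exists_const {B : Set I} {μ : Cardinal.{u}} {Z : Type v}
    (hZ : Cardinal.lift.{u} #Z < Cardinal.lift.{v} μ)
    (hcomp : ∀ i ∈ B, ∀ S : Set (Set (K i)), #S < μ → (∀ s ∈ S, s ∈ U i) → ⋂₀ S ∈ U i)
    (t : Finset I) (ht : (t : Set I) ⊆ B) (h : (∀ i, K i) → Z) (hh : DepOn (t : Set I) h) :
    ∃ z, ∀ᶠ b in Fl U, h b = z := by
  by_contra hcon
  have hcon : ∀ z, ¬ ∀ᶠ b in Fl U, h b = z := fun z hz => hcon ⟨z, hz⟩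
  have h1 : ∀ z, ∀ᶠ b in Fl U, h b ≠ z := by
    intro z
    have hd : DepOn (t : Set I) fun b => h b = z := fun b b' hb => by
      show (h b = z) = (h b' = z)
      rw [hh b b' hb]
    rcases decides' (U := U) t hd with h' | h'
    · exact absurd h' (hcon z)
    · exact h'
  have h2 := inter_mem_of_complete (U := U) hZ hcomp (fun z => {b | h b ≠ z}) h1
    (fun z => DepOn.mono (fun b b' hb => by
      show (h b ≠ z) = (h b' ≠ z)
      rw [hh b b' hb]) ht)
  obtain ⟨b, hb⟩ := Filter.nonempty_of_mem h2
  exact mem_iInter.1 hb (h b) rfl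

end Pool.Agent.X208.IU
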