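import Pool.Agent.X208.IU.Ord

/-! No long `Σ₁`-definable well-orderings at limits of measurable cardinals. -/

set_option autoImplicit false
set_option linter.unusedSectionVars false

open Set Filter Cardinal Ordinal

namespace Pool.Agent.X208.IU

universe u v

theorem IsMeasurable.strongLimit {c : Cardinal.{u}} (h : IsMeasurable c) : c.IsStrongLimit := by
  classical
  obtain ⟨h0, U, hU, hU'⟩ := h
  refine ⟨(aleph0_pos.trans h0).ne', ?_⟩
  intro ν hν
  by_contra hcon
  rw [not_lt] at hcon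
  have h1 : #c.ord.ToType ≤ #(Set ν.out) := by
    rw [mk_ord_toType, mk_set, mk_out]; exact hcon
  obtain ⟨e⟩ := h1
  let A : ν.out → Set c.ord.ToType := fun x =>
    if {k | x ∈ e k} ∈ U then {k | x ∈ e k} else {k | x ∈ e k}ᶜ
  have hA : ∀ x, A x ∈ U := by
    intro x
    simp only [A]
    split_ifs with h
    · exact h
    · exact Ultrafilter.compl_mem_iff_notMem.2 h
  have h2 : ⋂₀ (Set.range A) ∈ U := by
    refine hU _ ?_ ?_
    · refine lt_of_le_of_lt mk_range_le ?_
      rw [mk_out]; exact hν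
    · rintro _ ⟨x, rfl⟩; exact hA x
  obtain ⟨k, hk⟩ := U.nonempty_of_mem h2
  refine hU' k (U.mem_of_superset h2 ?_)
  intro k' hk'
  rw [Set.mem_singleton_iff]
  apply e.injective
  ext x
  have a1 := mem_sInter.1 hk _ (mem_range_self x)
  have a2 := mem_sInter.1 hk' _ (mem_range_self x)
  simp only [A] at a1 a2
  split_ifs at a1 a2 with h
  · exact ⟨fun _ => a1, fun _ => a2⟩
  · exact ⟨fun q => absurd q a2, fun q => absurd q a1⟩

theorem IsLimitOfMeasurables.aleph0_lt {κ : Cardinal.{u}} (h : IsLimitOfMeasurables κ) :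
    ℵ₀ < κ := by
  obtain ⟨l, _, h2, h3⟩ := h.2 0 (pos_iff_ne_zero.2 h.1)
  exact h3.1.trans h2

theorem IsLimitOfMeasurables.strongLimit {κ : Cardinal.{u}} (h : IsLimitOfMeasurables κ) :
    κ.IsStrongLimit := by
  refine ⟨h.1, fun c hc => ?_⟩
  obtain ⟨l, h1, h2, h3⟩ := h.2 c hc
  exact (h3.strongLimit.isStrongPrelimit h1).trans h2

section sys

variable (κ ρ : Cardinal.{u})

/-- the cardinality of an ordinal below `κ` -/
noncomputable def lamT (t : κ.ord.ToType) : Cardinal.{u} := (t.toOrd : Ordinal.{u}).card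

/-- measurable cardinals between `ρ` and `κ` -/
def MM : Type u := {t : κ.ord.ToType // (t.toOrd : Ordinal.{u}) = (lamT κ t).ord ∧
  IsMeasurable (lamT κ t) ∧ ρ < lamT κ t}

noncomputable instance : LinearOrder (MM κ ρ) := by unfold MM; infer_instance
instance : WellFoundedLT (MM κ ρ) := by unfold MM; infer_instance

/-- the index set -/
abbrev II : Type u := MM κ ρ ×ₗ κ.ord.ToType

instance : WellFoundedLT (II κ ρ) := inferInstance

variable {κ ρ}

/-- the measurable cardinal of an index -/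
noncomputable def lam (m : MM κ ρ) : Cardinal.{u} := lamT κ m.1

theorem lam_meas (m : MM κ ρ) : IsMeasurable (lam m) := m.2.2.1

theorem lam_lt (m : MM κ ρ) : lam m < κ := by
  have h : (m.1.toOrd : Ordinal.{u}) < κ.ord := m.1.toOrd.2
  exact Cardinal.lt_ord.1 h

theorem rho_lt (m : MM κ ρ) : ρ < lam m := m.2.2.2

variable (κ ρ) in
/-- the spaces -/
def KK (i : II κ ρ) : Type u := (lam (ofLex i).1).ord.ToType

/-- the ultrafilters -/
noncomputable def UU (i : II κ ρ) : Ultrafilter (KK κ ρ i) := (lam_meas (ofLex i).1).2.choose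

theorem UU_complete (i : II κ ρ) (S : Set (Set (KK κ ρ i))) (hS : #S < lam (ofLex i).1)
    (h : ∀ s ∈ S, s ∈ UU i) : ⋂₀ S ∈ UU i := (lam_meas (ofLex i).1).2.choose_spec.1 S hS h

theorem UU_nonprincipal (i : II κ ρ) (a : KK κ ρ i) : {a} ∉ UU i :=
  (lam_meas (ofLex i).1).2.choose_spec.2 a

theorem UU_CC : CC (UU (κ := κ) (ρ := ρ)) := by
  intro i
  refine ⟨fun S hS h => UU_complete i S ?_ h⟩
  exact (Cardinal.le_aleph0_iff_set_countable.2 hS).trans_lt (lam_meas _).1

/-- ordinal values -/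
noncomputable def vv (i : II κ ρ) (k : KK κ ρ i) : Ordinal.{u} := ToType.toOrd k

theorem vv_lt (i : II κ ρ) (k : KK κ ρ i) : vv i k < (lam (ofLex i).1).ord := (ToType.toOrd k).2

theorem vv_large (i : II κ ρ) (α : Ordinal.{u}) (hα : α < (lam (ofLex i).1).ord) :
    {k | α < vv i k} ∈ UU i := by
  have h1 : {k | α < vv i k} = ⋂₀ ((fun k : KK κ ρ i => ({k}ᶜ : Set (KK κ ρ i))) ''
      {k | vv i k ≤ α}) := by
    ext k
    simp only [mem_ofPred_eq, mem_sInter, mem_image, forall_exists_index, and_imp]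
    constructor
    · rintro h _ k' hk' rfl hkk
      rw [mem_singleton_iff] at hkk
      rw [hkk] at h
      exact absurd h (not_lt.2 hk')
    · intro h
      by_contra hcon
      exact h _ k (not_lt.1 hcon) rfl rfl
  rw [h1]
  refine UU_complete i _ ?_ ?_
  · refine mk_image_le.trans_lt ?_
    have h2 : #{k : KK κ ρ i | vv i k ≤ α} ≤ (Order.succ α).card := by
      have h3 : Function.Injective fun k : {k : KK κ ρ i | vv i k ≤ α} =>
          (ToType.mk ⟨vv i k.1, Set.mem_Iio.2 (Order.lt_succ_iff.2 k.2)⟩ : (Order.succ α).ToType) := by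
        intro k k' h
        have h4 := ToType.mk.injective h
        have h5 : vv i k.1 = vv i k'.1 := Subtype.mk.inj h4
        apply Subtype.ext
        exact ToType.mk.symm.injective (Subtype.ext h5)
      have := mk_le_of_injective h3
      rwa [mk_toType] at this
    refine h2.trans_lt ?_
    refine Cardinal.lt_ord.1 ?_
    exact (Cardinal.isSuccLimit_ord (lam_meas _).1.le).succ_lt hα
  · rintro _ ⟨k, _, rfl⟩
    exact Ultrafilter.compl_mem_iff_notMem.2 (UU_nonprincipal i k)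

/-- blocks -/
def blk (m : MM κ ρ) (ξ : κ.ord.ToType) : Set (II κ ρ) :=
  {i | (ofLex i).1 = m ∧ (ofLex i).2 < ξ}

theorem mk_blk_le (m : MM κ ρ) (ξ : κ.ord.ToType) : #(blk m ξ) ≤ (ξ.toOrd : Ordinal.{u}).card := by
  have h1 : Function.Injective fun i : blk m ξ =>
      (ToType.mk ⟨((ofLex i.1).2.toOrd : Ordinal.{u}), by
        have := i.2.2
        exact (ToType.mk.symm.lt_iff_lt.2 this)⟩ : (ξ.toOrd : Ordinal.{u}).ToType) := by
    intro i j h
    have h4 := ToType.mk.injective h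
    have h5 : ((ofLex i.1).2.toOrd : Ordinal.{u}) = ((ofLex j.1).2.toOrd : Ordinal.{u}) :=
      Subtype.mk.inj h4
    apply Subtype.ext
    apply ofLex.injective
    refine Prod.ext (i.2.1.trans j.2.1.symm) ?_
    exact ToType.mk.symm.injective (Subtype.ext h5)
  have := mk_le_of_injective h1
  rwa [mk_toType] at this

theorem blk_comp (m : MM κ ρ) (ξ : κ.ord.ToType) {μ : Cardinal.{u}} (hμ : μ ≤ lam m) :
    CompOn (UU (κ := κ) (ρ := ρ)) (blk m ξ) μ := by
  intro i hi S hS hS'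
  refine UU_complete i S (hS.trans_le ?_) hS'
  rw [hi.1]; exact hμ

theorem thin_blks (hκ : IsLimitOfMeasurables κ) (hρ : κ.IsRegular ∨ κ.ord.cof ≤ ρ)
    (J : Set (II κ ρ)) (hJ : ∀ c < κ, #{i | i ∈ J ∧ lam (ofLex i).1 ≤ c} < κ) :
    Thin (UU (κ := κ) (ρ := ρ)) κ J := by
  refine thin_of hκ.strongLimit hκ.aleph0_lt (fun i => lam (ofLex i).1) ?_ ?_ ?_ ?_ ?_ hJ
  · intro i _ j hj S hS hS'
    rw [mem_singleton_iff] at hj
    subst hj
    exact UU_complete j S hS hS'
  · intro i _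
    show #(lam (ofLex i).1).ord.ToType ≤ _
    rw [mk_ord_toType]
  · intro i _; exact lam_lt _
  · intro i _; exact (lam_meas _).1
  · rcases hρ with h | h
    · exact Or.inl h
    · right; intro i _; exact h.trans_lt (rho_lt _)

/-- Sets fixed by all the iterates of one measure are determined by their part below it. -/
theorem det_blk (hκ : IsLimitOfMeasurables κ) (m : MM κ ρ) {x x' : ZFSet.{u}}
    (hxκ : x ⊆ κ.ord.toZFSet)
    (hx : ∀ ξ, emb UU_CC (blk m ξ) x = x) (hx' : ∀ ξ, emb UU_CC (blk m ξ) x' = x')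
    (heq : ∀ k : (lam m).ord.ToType, (k.toOrd : Ordinal.{u}).toZFSet ∈ x →
      (k.toOrd : Ordinal.{u}).toZFSet ∈ x') : x ⊆ x' := by
  intro y hy
  obtain ⟨β, hβ, rfl⟩ := mem_toZFSet_iff.1 (hxκ hy)
  have hβ' : Order.succ β < κ.ord :=
    (Cardinal.isSuccLimit_ord hκ.aleph0_lt.le).succ_lt hβ
  let ξ : κ.ord.ToType := ToType.mk ⟨Order.succ β, hβ'⟩
  let i : II κ ρ := toLex (m, ToType.mk ⟨β, hβ⟩)
  have hi : i ∈ blk m ξ := by
    refine ⟨rfl, ?_⟩
    show ToType.mk ⟨β, hβ⟩ < ToType.mk ⟨Order.succ β, hβ'⟩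
    rw [OrderIso.lt_iff_lt]
    exact Order.lt_succ β
  have h1 := mem_emb_of_crd (J := blk m ξ) (UU_CC (κ := κ) (ρ := ρ)) (val := vv)
    (L := (lam m).ord)
    (fun j hj k => by have := vv_lt j k; rwa [hj.1] at this)
    (fun j hj α hα => vv_large j α (by rw [hj.1]; exact hα))
    (fun j => ((ofLex j).2.toOrd : Ordinal.{u}))
    (fun j hj α hα => by
      have hα' : α < κ.ord := hα.trans (ofLex j).2.toOrd.2
      refine ⟨toLex (m, ToType.mk ⟨α, hα'⟩), ⟨rfl, ?_⟩, ?_, ?_⟩
      · refine lt_trans ?_ hj.2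
        have : (ToType.mk ⟨α, hα'⟩ : κ.ord.ToType) < ToType.mk ((ofLex j).2.toOrd) := by
          rw [OrderIso.lt_iff_lt]; exact hα
        simpa using this
      · rw [Prod.Lex.lt_iff]
        right
        refine ⟨hj.1.symm, ?_⟩
        have : (ToType.mk ⟨α, hα'⟩ : κ.ord.ToType) < ToType.mk ((ofLex j).2.toOrd) := by
          rw [OrderIso.lt_iff_lt]; exact hα
        simpa using this
      · simp) i hi
  have h2 : ((ofLex i).2.toOrd : Ordinal.{u}) = β := by simp [i]
  rw [h2] at h1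
  refine determined UU_CC (hx ξ) (hx' ξ) h1 ?_ hy
  intro z hz hzx
  obtain ⟨α, hα, rfl⟩ := mem_toZFSet_iff.1 hz
  have := heq (ToType.mk ⟨α, hα⟩)
  simpa using this (by simpa using hzx)

/-- Some element of a large set of subsets of `κ` is moved by an iterate of every measure. -/
theorem exists_moved (hκ : IsLimitOfMeasurables κ) (D : Set ZFSet.{u})
    (hD : ∀ x ∈ D, x ⊆ κ.ord.toZFSet) (hcard : Cardinal.lift.{u + 1} κ < #D) :
    ∃ x ∈ D, ∀ m : MM κ ρ, ∃ ξ, emb UU_CC (blk m ξ) x ≠ x := by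
  classical
  by_contra hcon
  push Not at hcon
  let DD : MM κ ρ → Set ZFSet.{u} := fun m => {x | x ∈ D ∧ ∀ ξ, emb UU_CC (blk m ξ) x = x}
  have hsub : D ⊆ ⋃ m, DD m := by
    intro x hx
    obtain ⟨m, hm⟩ := hcon x hx
    exact mem_iUnion.2 ⟨m, hx, hm⟩
  have h1 : ∀ m, #(DD m) ≤ Cardinal.lift.{u + 1} κ := by
    intro m
    let f : DD m → Set (lam m).ord.ToType := fun x =>
      {k | (k.toOrd : Ordinal.{u}).toZFSet ∈ x.1}
    have hf : Function.Injective f := by
      intro x x' hxx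
      apply Subtype.ext
      have e1 := det_blk hκ m (hD _ x.2.1) x.2.2 x'.2.2 (fun k hk => by
        have : k ∈ f x := hk
        rw [hxx] at this; exact this)
      have e2 := det_blk hκ m (hD _ x'.2.1) x'.2.2 x.2.2 (fun k hk => by
        have : k ∈ f x' := hk
        rw [← hxx] at this; exact this)
      exact ZFSet.ext fun z => ⟨fun h => e1 h, fun h => e2 h⟩
    have h2 := Cardinal.mk_le_of_injective (Equiv.ulift.{u + 1}.symm.injective.comp hf)
    refine h2.trans ?_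
    rw [mk_uLift, mk_set, mk_ord_toType]
    exact Cardinal.lift_le.2 (hκ.strongLimit.isStrongPrelimit (lam_lt m)).le
  have h3 : #(⋃ m, DD m) ≤ Cardinal.lift.{u + 1} κ := by
    have h4 := mk_iUnion_le_lift.{u + 1, u} DD
    rw [Cardinal.lift_id'.{u, u + 1}] at h4
    refine h4.trans ?_
    have h5 : Cardinal.lift.{u + 1, u} #(MM κ ρ) ≤ Cardinal.lift.{u + 1} κ := by
      refine Cardinal.lift_le.2 ?_
      have : #(MM κ ρ) ≤ #κ.ord.ToType := mk_subtype_le _
      rwa [mk_ord_toType] at this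
    have h6 : (⨆ m, Cardinal.lift.{u, u + 1} #(DD m)) ≤ Cardinal.lift.{u + 1} κ := by
      refine ciSup_le' fun m => ?_
      rw [Cardinal.lift_id'.{u, u + 1}]
      exact h1 m
    refine (mul_le_mul' h5 h6).trans ?_
    rw [mul_eq_self]
    rw [← Cardinal.lift_aleph0.{u + 1, u}]
    exact Cardinal.lift_le.2 hκ.aleph0_lt.le
  exact absurd (hcard.trans_le ((mk_le_mk_of_subset hsub).trans h3)) (lt_irrefl _)

end sys

/-- Classes definable by `Σ₁` formulas are preserved. -/
theorem Sig1Def.pres {I : Type u} [LinearOrder I] [WellFoundedLT I] {K : I → Type u}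
    {U : ∀ i, Ultrafilter (K i)} (hU : CC U) {J : Set I} {X : ZFSet.{u} → Prop} {p : ZFSet.{u}}
    (h : Sig1Def X p) (hp : emb hU J p = p) {x : ZFSet.{u}} (hx : X x) : X (emb hU J x) := by
  obtain ⟨k, ψ, h⟩ := h
  rw [h] at hx
  obtain ⟨y, hy⟩ := hx
  rw [h]
  refine ⟨fun i => emb hU J (y i), ?_⟩
  rw [← emb_sat hU (J := J)] at hy
  convert hy using 1
  funext i
  refine Fin.cases ?_ (fun i => ?_) i
  · simp
  · simp only [Fin.cons_succ]
    refine Fin.cases ?_ (fun i => ?_) i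
    · simp [hp]
    · simp

/-- The core of the argument. -/
theorem core (κ : Cardinal.{u}) (hκ : IsLimitOfMeasurables κ) (p : ZFSet.{u})
    (hp : InH κ p ∨ p = κ.ord.toZFSet) (D : Set ZFSet.{u}) (hD : ∀ x ∈ D, x ⊆ κ.ord.toZFSet)
    (hcard : Cardinal.lift.{u + 1} κ < #D) (R : ZFSet.{u} → ZFSet.{u} → Prop)
    (hR : IsWellOrdering D R)
    (hpresR : ∀ {I : Type u} [LinearOrder I] [WellFoundedLT I] {K : I → Type u}
      {U : ∀ i, Ultrafilter (K i)} (hU : CC U) (J : Set I), emb hU J p = p →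
      ∀ a b, R a b → R (emb hU J a) (emb hU J b)) : False := by
  classical
  -- the strict version of `R`
  obtain ⟨S, hS, hRS⟩ : ∃ S, IsStrictWO D S ∧ ∀ a b, S a b ↔ R a b ∧ a ≠ b := by
    rcases hR with h | ⟨S, hS, hRS⟩
    · refine ⟨R, h, fun a b => ⟨fun hab => ⟨hab, ?_⟩, fun h => h.1⟩⟩
      rintro rfl
      exact h.wf.irrefl.irrefl _ hab
    · refine ⟨S, hS, fun a b => ⟨fun hab => ?_, fun h => ?_⟩⟩
      · refine ⟨(hRS a b).2 ⟨(hS.field a b hab).1, (hS.field a b hab).2, fun hba => ?_⟩, ?_⟩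
        · exact hS.wf.irrefl.irrefl _ (hS.trans _ _ _ hab hba)
        · rintro rfl
          exact hS.wf.irrefl.irrefl _ hab
      · obtain ⟨h1, h2, h3⟩ := (hRS a b).1 h.1
        rcases hS.total a h1 b h2 with h4 | h4 | h4
        · exact h4
        · exact absurd h4 h.2
        · exact absurd h4 h3
  have hpres : ∀ {I : Type u} [LinearOrder I] [WellFoundedLT I] {K : I → Type u}
      {U : ∀ i, Ultrafilter (K i)} (hU : CC U) (J : Set I), emb hU J p = p →
      ∀ a b, S a b → S (emb hU J a) (emb hU J b) := by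
    intro I _ _ K U hU J hpJ a b hab
    obtain ⟨h1, h2⟩ := (hRS a b).1 hab
    exact (hRS _ _).2 ⟨hpresR hU J hpJ a b h1, fun h => h2 ((emb_inj hU).1 h)⟩
  -- the bound
  obtain ⟨t0, ht0, hpt0, ht0κ⟩ : ∃ t : ZFSet.{u}, t.IsTransitive ∧
      (p ⊆ t ∨ p = κ.ord.toZFSet) ∧ t.card < κ := by
    rcases hp with ⟨t, h1, h2, h3⟩ | h
    · exact ⟨t, h1, Or.inl h2, h3⟩
    · exact ⟨∅, ZFSet.isTransitive_empty, Or.inr h, by
        rw [ZFSet.card_empty]; exact aleph0_pos.trans hκ.aleph0_lt⟩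
  obtain ⟨ρ, hρκ, hρt, hρ⟩ : ∃ ρ < κ, t0.card ≤ ρ ∧ (κ.IsRegular ∨ κ.ord.cof ≤ ρ) := by
    rcases isRegular_or_isSingular hκ.aleph0_lt.le with h | h
    · exact ⟨t0.card, ht0κ, le_rfl, Or.inl h⟩
    · exact ⟨max t0.card κ.ord.cof, max_lt ht0κ h.cof_ord_lt, le_max_left _ _,
        Or.inr (le_max_right _ _)⟩
  obtain ⟨x, hxD, hx⟩ := exists_moved (ρ := ρ) hκ D hD hcard
  choose ξ hξ using hx
  -- fixed parameters
  have hfix : ∀ J : Set (II κ ρ), (∀ c < κ, #{i | i ∈ J ∧ lam (ofLex i).1 ≤ c} < κ) →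
      emb (U := UU (κ := κ) (ρ := ρ)) UU_CC J p = p := by
    intro J hJ
    rcases hpt0 with h | h
    · refine emb_fix UU_CC (μ := Order.succ ρ) (t := t0) ?_ ht0 ?_ p h
      · intro i _ S hS hS'
        exact UU_complete i S (hS.trans_le (Order.succ_le_of_lt (rho_lt _))) hS'
      · exact hρt.trans_lt (Order.lt_succ _)
    · rw [h]; exact (thin_blks hκ hρ J hJ).emb_eq UU_CC
  -- the next measurable
  have hmk : ∀ c < κ, ∃ m : MM κ ρ, c < lam m := by
    intro c hc
    obtain ⟨l, h1, h2, h3⟩ := hκ.2 (max c ρ) (max_lt hc hρκ)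
    have h4 : l.ord < κ.ord := Cardinal.ord_lt_ord.2 h2
    have h5 : lamT κ (ToType.mk ⟨l.ord, h4⟩) = l := by simp [lamT]
    refine ⟨⟨ToType.mk ⟨l.ord, h4⟩, ?_, ?_, ?_⟩, ?_⟩
    · rw [h5]; simp
    · rw [h5]; exact h3
    · rw [h5]; exact (le_max_right _ _).trans_lt h1
    · show c < lamT κ (ToType.mk ⟨l.ord, h4⟩)
      rw [h5]; exact (le_max_left _ _).trans_lt h1
  have hnext : ∀ m : MM κ ρ, ∃ m' : MM κ ρ, max (lam m) ((ξ m).toOrd : Ordinal.{u}).card < lam m' :=
    fun m => hmk _ (max_lt (lam_lt m) (Cardinal.lt_ord.1 (ξ m).toOrd.2))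
  choose nx hnx using hnext
  obtain ⟨m0, -⟩ := hmk 0 (aleph0_pos.trans hκ.aleph0_lt)
  let ms : ℕ → MM κ ρ := fun n => nx^[n] m0
  have hms : ∀ n, ms (n + 1) = nx (ms n) := fun n => Function.iterate_succ_apply' nx n m0
  have hlt : ∀ n, max (lam (ms n)) ((ξ (ms n)).toOrd : Ordinal.{u}).card < lam (ms (n + 1)) := by
    intro n; rw [hms]; exact hnx _
  have hmono : StrictMono fun n => lam (ms n) :=
    strictMono_nat_of_lt_succ fun n => (le_max_left _ _).trans_lt (hlt n)
  let A : ℕ → Set (II κ ρ) := fun n => blk (ms n) (ξ (ms n))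
  let B : ℕ → Set (II κ ρ) := fun n => ⋃ k : {k : ℕ // n ≤ k}, A k.1
  have hBsub : ∀ n, B n ⊆ ⋃ k, A k := fun n => iUnion_subset fun k => subset_iUnion A k.1
  have hlam : ∀ n i, i ∈ A n → lam (ofLex i).1 = lam (ms n) := by
    intro n i hi
    have : (ofLex i).1 = ms n := hi.1
    rw [this]
  have hAcard : ∀ n, #(A n) < lam (ms (n + 1)) := fun n =>
    (mk_blk_le _ _).trans_lt ((le_max_right _ _).trans_lt (hlt n))
  -- thinness
  have hthin : ∀ J : Set (II κ ρ), J ⊆ ⋃ k, A k →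
      ∀ c < κ, #{i | i ∈ J ∧ lam (ofLex i).1 ≤ c} < κ := by
    intro J hJ c hc
    let E1 : Set (II κ ρ) := ⋃ k : ULift.{u} {k : ℕ // lam (ms (k + 1)) ≤ c}, A k.down.1
    let E2 : Set (II κ ρ) := ⋃ k : ULift.{u} {k : ℕ // lam (ms k) ≤ c ∧ c < lam (ms (k + 1))},
      A k.down.1
    have h1 : {i | i ∈ J ∧ lam (ofLex i).1 ≤ c} ⊆ E1 ∪ E2 := by
      rintro i ⟨hi, hic⟩
      obtain ⟨k, hk⟩ := mem_iUnion.1 (hJ hi)
      rw [hlam k i hk] at hic
      rcases le_or_gt (lam (ms (k + 1))) c with h | h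
      · exact Or.inl (mem_iUnion.2 ⟨⟨k, h⟩, hk⟩)
      · exact Or.inr (mem_iUnion.2 ⟨⟨k, hic, h⟩, hk⟩)
    refine (mk_le_mk_of_subset h1).trans_lt ((mk_union_le _ _).trans_lt ?_)
    refine add_lt_of_lt hκ.aleph0_lt.le ?_ ?_
    · refine (mk_iUnion_le _).trans_lt ?_
      refine mul_lt_of_lt hκ.aleph0_lt.le ?_ ?_
      · refine lt_of_le_of_lt ?_ hκ.aleph0_lt
        exact Cardinal.mk_le_aleph0
      · refine lt_of_le_of_lt (ciSup_le' fun k => ?_) hc
        exact (hAcard k.down.1).le.trans k.down.2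
    · refine (mk_iUnion_le _).trans_lt ?_
      refine mul_lt_of_lt hκ.aleph0_lt.le ?_ ?_
      · refine lt_of_le_of_lt ?_ hκ.aleph0_lt
        exact Cardinal.mk_le_aleph0
      · by_cases hne : ∃ k, lam (ms k) ≤ c ∧ c < lam (ms (k + 1))
        · obtain ⟨k, h2, h3⟩ := hne
          refine lt_of_le_of_lt (ciSup_le' fun k' => ?_) (lam_lt (ms (k + 1)))
          have h4 : k'.down.1 = k := by
            have h5 := k'.down.2.1.trans_lt h3
            have h6 := h2.trans_lt k'.down.2.2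
            have h7 := hmono.lt_iff_lt.1 h5
            have h8 := hmono.lt_iff_lt.1 h6
            omega
          rw [h4]
          exact (hAcard k).le
        · refine lt_of_le_of_lt (ciSup_le' fun k' => ?_) (aleph0_pos.trans hκ.aleph0_lt)
          exact absurd ⟨k'.down.1, k'.down.2⟩ hne
  have hpA : ∀ n, emb (U := UU (κ := κ) (ρ := ρ)) UU_CC (A n) p = p := fun n =>
    hfix _ (hthin _ (subset_iUnion A n))
  have hpB : ∀ n, emb (U := UU (κ := κ) (ρ := ρ)) UU_CC (B n) p = p := fun n =>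
    hfix _ (hthin _ (hBsub n))
  -- `x` is below its image
  have hxfield : ∃ y ∈ D, y ≠ x := by
    by_contra hcon
    push Not at hcon
    have h1 : D ⊆ {x} := fun y hy => hcon y hy
    have h2 := (hcard.trans_le (mk_le_mk_of_subset h1))
    rw [mk_singleton] at h2
    have h3 : Cardinal.lift.{u + 1, u} (1 : Cardinal.{u}) < 1 :=
      (Cardinal.lift_lt.2 (one_lt_aleph0.trans hκ.aleph0_lt)).trans h2
    simp at h3
  have hxA : ∀ n, S x (emb UU_CC (A n) x) := by
    intro n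
    have hmem : emb UU_CC (A n) x ∈ D := by
      obtain ⟨y, hy, hyx⟩ := hxfield
      rcases hS.total y hy x hxD with h | h | h
      · exact (hS.field _ _ (hpres UU_CC (A n) (hpA n) _ _ h)).2
      · exact absurd h hyx
      · exact (hS.field _ _ (hpres UU_CC (A n) (hpA n) _ _ h)).1
    rcases hS.total x hxD _ hmem with h | h | h
    · exact h
    · exact absurd h.symm (hξ (ms n))
    · exfalso
      let y : ℕ → ZFSet.{u} := fun k => (emb UU_CC (A n))^[k] x
      have hy : ∀ k, S (y (k + 1)) (y k) := by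
        intro k
        induction k with
        | zero => exact h
        | succ k ih =>
          have h1 := hpres UU_CC (A n) (hpA n) _ _ ih
          simp only [y] at h1 ⊢
          rw [Function.iterate_succ_apply', Function.iterate_succ_apply'] at *
          exact h1
      exact (wellFounded_iff_isEmpty_descending_chain.1 hS.wf).false ⟨y, hy⟩
  -- composition
  have hBA : ∀ n, B n = A n ∪ B (n + 1) := by
    intro n
    ext i
    simp only [B, mem_iUnion, mem_union, Subtype.exists, exists_prop]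
    constructor
    · rintro ⟨k, hk, hi⟩
      rcases eq_or_lt_of_le hk with rfl | hk
      · exact Or.inl hi
      · exact Or.inr ⟨k, hk, hi⟩
    · rintro (hi | ⟨k, hk, hi⟩)
      · exact ⟨n, le_rfl, hi⟩
      · exact ⟨k, by omega, hi⟩
  have hcomp : ∀ n, emb UU_CC (B (n + 1)) (emb UU_CC (A n) x) = emb UU_CC (B n) x := by
    intro n
    have h0 : ℵ₀ ≤ max (lam (ms n)) ((ξ (ms n)).toOrd : Ordinal.{u}).card :=
      (lam_meas _).1.le.trans (le_max_left _ _)
    rw [hBA n]
    refine emb_comp UU_CC h0 ((mk_blk_le _ _).trans (le_max_right _ _)) ?_ (hlt n) ?_ ?_ x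
    · intro i hi
      show #(lam (ofLex i).1).ord.ToType ≤ _
      rw [mk_ord_toType, hlam n i hi]
      exact le_max_left _ _
    · intro i hi S hS hS'
      obtain ⟨k, hk⟩ := mem_iUnion.1 hi
      refine UU_complete i S (hS.trans_le ?_) hS'
      rw [hlam k.1 i hk]
      exact hmono.monotone k.2
    · rw [Set.disjoint_left]
      intro i hi hi'
      obtain ⟨k, hk⟩ := mem_iUnion.1 hi'
      have h1 := (hlam n i hi).symm.trans (hlam k.1 i hk)
      have h2 := hmono.injective h1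
      have h3 := k.2
      omega
  have hdesc : ∀ n, S (emb UU_CC (B (n + 1)) x) (emb UU_CC (B n) x) := by
    intro n
    rw [← hcomp n]
    exact hpres UU_CC (B (n + 1)) (hpB (n + 1)) _ _ (hxA n)
  exact (wellFounded_iff_isEmpty_descending_chain.1 hS.wf).false
    ⟨fun n => emb UU_CC (B n) x, hdesc⟩

/-- Definable by pairs. -/
theorem no_long_wo (κ : Cardinal.{u}) (hκ : IsLimitOfMeasurables κ) (p : ZFSet.{u})
    (hp : InH κ p ∨ p = κ.ord.toZFSet) (D : Set ZFSet.{u}) (hD : ∀ x ∈ D, x ⊆ κ.ord.toZFSet)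
    (hcard : Cardinal.lift.{u + 1} κ < #D) (R : ZFSet.{u} → ZFSet.{u} → Prop)
    (hR : IsWellOrdering D R) : ¬ Sig1Def (fun z => ∃ a b, z = ZFSet.pair a b ∧ R a b) p := by
  intro hdef
  refine core κ hκ p hp D hD hcard R hR ?_
  intro I _ _ K U hU J hpJ a b h1
  have h3 := hdef.pres hU hpJ (x := ZFSet.pair a b) ⟨a, b, rfl, h1⟩
  rw [emb_pair] at h3
  obtain ⟨a', b', h4, h5⟩ := h3
  obtain ⟨rfl, rfl⟩ := ZFSet.pair_injective h4
  exact h5

/-- Definable as a binary relation. -/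
theorem no_long_wo_rel (κ : Cardinal.{u}) (hκ : IsLimitOfMeasurables κ) (p : ZFSet.{u})
    (hp : InH κ p ∨ p = κ.ord.toZFSet) (D : Set ZFSet.{u}) (hD : ∀ x ∈ D, x ⊆ κ.ord.toZFSet)
    (hcard : Cardinal.lift.{u + 1} κ < #D) (R : ZFSet.{u} → ZFSet.{u} → Prop)
    (hR : IsWellOrdering D R) : ¬ Sig1DefRel R p := by
  rintro ⟨k, ψ, h⟩
  refine core κ hκ p hp D hD hcard R hR ?_
  intro I _ _ K U hU J hpJ a b h1
  rw [h] at h1 ⊢
  obtain ⟨z, hz⟩ := h1
  refine ⟨fun i => emb hU J (z i), ?_⟩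
  rw [← emb_sat hU (J := J)] at hz
  convert hz using 1
  funext i
  refine Fin.cases ?_ (fun i => ?_) i
  · simp
  · simp only [Fin.cons_succ]
    refine Fin.cases ?_ (fun i => ?_) i
    · simp
    · simp only [Fin.cons_succ]
      refine Fin.cases ?_ (fun i => ?_) i
      · simp [hpJ]
      · simp

end Pool.Agent.X208.IU
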