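import Pool.Agent.X208.IU.Emb

/-! Ordinals in iterated ultrapowers, and cardinals which are fixed. -/

set_option autoImplicit false
set_option linter.unusedSectionVars false

open Set Filter Cardinal Ordinal

namespace Pool.Agent.X208.IU

universe u v

variable {I : Type u} [LinearOrder I] [WellFoundedLT I] {K : I → Type u}
variable {U : ∀ i, Ultrafilter (K i)}

theorem col_isOrdinal (hU : CC U) {J : Set I} (f : Fn K J) :
    (∀ᶠ b in Fl U, (f.1 b).IsOrdinal) → (col hU f).IsOrdinal := by
  induction f using (E_wf hU J).induction with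
  | _ f ih =>
    intro hf
    rw [ZFSet.isOrdinal_iff_forall_mem_isOrdinal]
    constructor
    · intro y hy z hz
      rw [mem_col] at hy
      obtain ⟨g, hg, rfl⟩ := hy
      rw [mem_col] at hz
      obtain ⟨h, hh, rfl⟩ := hz
      rw [col_mem_iff]
      show ∀ᶠ b in Fl U, _
      filter_upwards [hg, hh, hf] with b h1 h2 h3
      exact h3.mem_trans h2 h1
    · intro y hy
      rw [mem_col] at hy
      obtain ⟨g, hg, rfl⟩ := hy
      refine ih g hg ?_
      filter_upwards [hg, hf] with b h1 h3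
      exact h3.mem h1

theorem emb_isOrdinal (hU : CC U) {J : Set I} {x : ZFSet.{u}} (hx : x.IsOrdinal) :
    (emb hU J x).IsOrdinal := col_isOrdinal hU _ (Filter.Eventually.of_forall fun _ => hx)

theorem sub_emb (hU : CC U) {J : Set I} (α : Ordinal.{u}) :
    α.toZFSet ⊆ emb hU J α.toZFSet := by
  induction α using WellFoundedLT.induction with
  | ind α ih =>
    intro x hx
    obtain ⟨β, hβ, rfl⟩ := mem_toZFSet_iff.1 hx
    exact (ZFSet.isOrdinal_toZFSet β).mem_of_subset_of_mem
      (emb_isOrdinal hU (ZFSet.isOrdinal_toZFSet α)) (ih β hβ)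
      ((emb_mem hU).2 hx)

variable (U) in
/-- Conditions under which `κ` is fixed. -/
structure Thin (κ : Cardinal.{u}) (J : Set I) : Prop where
  bdd : ∀ f : Fn K J, (∀ᶠ b in Fl U, f.1 b ∈ κ.ord.toZFSet) →
    ∃ c < κ, ∀ᶠ b in Fl U, f.1 b ∈ c.ord.toZFSet
  cnt : ∀ c < κ, ∃ (W : Type u) (F : W → Fn K J), #W < κ ∧
    ∀ f : Fn K J, (∀ᶠ b in Fl U, f.1 b ∈ c.ord.toZFSet) → ∃ w, ∀ᶠ b in Fl U, f.1 b = (F w).1 b

theorem Thin.col_mem (hU : CC U) {κ : Cardinal.{u}} {J : Set I} (h : Thin U κ J)
    (f : Fn K J) (hf : ∀ᶠ b in Fl U, f.1 b ∈ κ.ord.toZFSet) :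
    col hU f ∈ κ.ord.toZFSet := by
  obtain ⟨c, hc, hfc⟩ := h.bdd f hf
  obtain ⟨W, F, hW, hF⟩ := h.cnt c hc
  have hord : (col hU f).IsOrdinal := col_isOrdinal hU f (by
    filter_upwards [hfc] with b hb
    exact (ZFSet.isOrdinal_toZFSet _).mem hb)
  have hsub : col hU f ⊆ ZFSet.range fun w : W => col hU (F w) := by
    intro y hy
    rw [mem_col] at hy
    obtain ⟨g, hg, rfl⟩ := hy
    obtain ⟨w, hw⟩ := hF g (by
      filter_upwards [hg, hfc] with b h1 h2
      exact (ZFSet.isOrdinal_toZFSet _).mem_trans h1 h2)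
    rw [ZFSet.mem_range]
    exact ⟨w, (col_congr hU hw).symm⟩
  have hcard : (col hU f).card < κ := by
    refine (ZFSet.card_mono hsub).trans_lt (lt_of_le_of_lt ?_ hW)
    have := ZFSet.lift_card_range_le (f := fun w : W => col hU (F w))
    simpa using this
  rw [← hord.toZFSet_rank_eq, toZFSet_mem_toZFSet_iff, Cardinal.lt_ord, ← card_toZFSet,
    hord.toZFSet_rank_eq]
  exact hcard

theorem Thin.emb_eq (hU : CC U) {κ : Cardinal.{u}} {J : Set I} (h : Thin U κ J) :
    emb hU J κ.ord.toZFSet = κ.ord.toZFSet := by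
  ext x
  constructor
  · intro hx
    rw [mem_emb] at hx
    obtain ⟨g, hg, rfl⟩ := hx
    exact h.col_mem hU g hg
  · exact fun hx => sub_emb hU κ.ord hx

/-- A condition on one coordinate which depends on earlier ones. -/
theorem coord_mem (j : I) (S : (∀ i, K i) → Set (K j))
    (hS : ∀ b b', (∀ i < j, b i = b' i) → S b = S b') (hm : ∀ b, S b ∈ U j) :
    ∀ᶠ b in Fl U, b j ∈ S b := by
  classical
  refine ⟨⟨fun i b => if h : i = j then {k : K i | h ▸ k ∈ S b} else Set.univ,
    fun i b b' h => ?_, fun i b => ?_⟩, ?_⟩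
  · split_ifs with hij
    · subst hij
      simp only [hS b b' h]
    · rfl
  · split_ifs with hij
    · subst hij; exact hm b
    · exact Filter.univ_mem
  · intro b hb
    have := hb j
    simpa using this

/-- Coordinate functions. -/
noncomputable def crd (J : Set I) (val : ∀ i, K i → Ordinal.{u}) (i : I) (hi : i ∈ J) : Fn K J :=
  ⟨fun b => (val i (b i)).toZFSet, {i}, by simpa using hi, fun b b' h => by
    show (val i (b i)).toZFSet = (val i (b' i)).toZFSet
    rw [h i (by simp)]⟩

theorem crd_lower (hU : CC U) {J : Set I} {val : ∀ i, K i → Ordinal.{u}} {L : Ordinal.{u}}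
    (hval : ∀ i ∈ J, ∀ k, val i k < L) (hlarge : ∀ i ∈ J, ∀ α < L, {k | α < val i k} ∈ U i)
    (h : I → Ordinal.{u}) (hh : ∀ i ∈ J, ∀ α < h i, ∃ j ∈ J, j < i ∧ h j = α)
    (i : I) (hi : i ∈ J) : (h i).toZFSet ⊆ col hU (crd J val i hi) := by
  induction i using WellFoundedLT.induction with
  | ind i ih =>
    intro x hx
    obtain ⟨α, hα, rfl⟩ := mem_toZFSet_iff.1 hx
    obtain ⟨j, hj, hji, rfl⟩ := hh i hi α hα
    refine (ZFSet.isOrdinal_toZFSet _).mem_of_subset_of_mem
      (col_isOrdinal hU _ (Filter.Eventually.of_forall fun _ => ZFSet.isOrdinal_toZFSet _))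
      (ih j hji hj) ?_
    rw [col_mem_iff]
    have := coord_mem (U := U) i (fun b => {k | val j (b j) < val i k})
      (fun b b' hb => by rw [hb j hji]) (fun b => hlarge i hi _ (hval j hj _))
    show ∀ᶠ b in Fl U, _
    filter_upwards [this] with b hb
    exact toZFSet_mem_toZFSet_iff.2 hb

theorem mem_emb_of_crd (hU : CC U) {J : Set I} {val : ∀ i, K i → Ordinal.{u}} {L : Ordinal.{u}}
    (hval : ∀ i ∈ J, ∀ k, val i k < L) (hlarge : ∀ i ∈ J, ∀ α < L, {k | α < val i k} ∈ U i)
    (h : I → Ordinal.{u}) (hh : ∀ i ∈ J, ∀ α < h i, ∃ j ∈ J, j < i ∧ h j = α)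
    (i : I) (hi : i ∈ J) : (h i).toZFSet ∈ emb hU J L.toZFSet := by
  refine (ZFSet.isOrdinal_toZFSet _).mem_of_subset_of_mem
    (emb_isOrdinal hU (ZFSet.isOrdinal_toZFSet _)) (crd_lower hU hval hlarge h hh i hi) ?_
  rw [mem_emb]
  exact ⟨_, Filter.Eventually.of_forall fun b => toZFSet_mem_toZFSet_iff.2 (hval i hi _), rfl⟩

/-- Sets fixed by the embeddings are determined by their part in `L`. -/
theorem determined (hU : CC U) {x x' L y : ZFSet.{u}} {J : Set I} (hx : emb hU J x = x)
    (hx' : emb hU J x' = x') (hL : y ∈ emb hU J L) (heq : ∀ z ∈ L, z ∈ x → z ∈ x')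
    (hy : y ∈ x) : y ∈ x' := by
  rw [← hx, mem_emb] at hy
  obtain ⟨g, hg, rfl⟩ := hy
  have h1 : ∀ᶠ b in Fl U, g.1 b ∈ L := by
    rw [emb, col_mem_iff] at hL; exact hL
  rw [← hx', mem_emb]
  refine ⟨g, ?_, rfl⟩
  filter_upwards [hg, h1] with b hb hb'
  exact heq _ hb' hb

/-- Sufficient conditions for `Thin`. -/
theorem thin_of {κ : Cardinal.{u}} (hκ : κ.IsStrongLimit) (hκ0 : ℵ₀ < κ) {J : Set I}
    (cm : I → Cardinal.{u}) (hcm : ∀ i ∈ J, CompOn U {i} (cm i)) (hcK : ∀ i ∈ J, #(K i) ≤ cm i)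
    (hcκ : ∀ i ∈ J, cm i < κ) (hc0 : ∀ i ∈ J, ℵ₀ < cm i)
    (hreg : κ.IsRegular ∨ ∀ i ∈ J, κ.ord.cof < cm i)
    (hJ : ∀ c < κ, #{i | i ∈ J ∧ cm i ≤ c} < κ) : Thin U κ J := by
  classical
  have hfin : ∀ (s : Finset I) (ν : Cardinal.{u}), ℵ₀ ≤ ν → (∀ i ∈ s, #(K i) ≤ ν) →
      #(∀ i : s, K i) ≤ ν := by
    intro s ν hν h
    rw [mk_pi]
    calc (Cardinal.prod fun i : s => #(K i)) ≤ Cardinal.prod fun _ : s => ν :=
          prod_le_prod _ _ fun i => h i i.2
      _ = ν ^ (#s : Cardinal.{u}) := by simp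
      _ ≤ ν := by
          rw [Cardinal.mk_coe_finset]
          exact power_nat_le hν
  constructor
  · intro f hf
    rcases hreg with hreg | hcof
    · -- regular case
      obtain ⟨s, hs, hfs⟩ := f.2
      obtain ⟨b0⟩ := exists_point U
      let ex : (∀ i : s, K i) → (∀ i, K i) := fun x i => if h : i ∈ s then x ⟨i, h⟩ else b0 i
      have hex : ∀ b, f.1 b = f.1 (ex fun i => b i) := by
        intro b
        refine hfs _ _ fun i hi => ?_
        have : i ∈ s := hi
        simp [ex, this]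
      have hcard : #(∀ i : s, K i) < κ := by
        obtain ⟨ν, hν0, hνκ, hν⟩ : ∃ ν, ℵ₀ ≤ ν ∧ ν < κ ∧ ∀ i ∈ s, #(K i) ≤ ν := by
          clear hfs hex ex
          induction s using Finset.induction_on with
          | empty => exact ⟨ℵ₀, le_rfl, hκ0, by simp⟩
          | insert i s his ih =>
            obtain ⟨ν, h1, h2, h3⟩ := ih (fun j hj => hs (by
              rw [Finset.coe_insert]; exact Or.inr hj))
            have hi : i ∈ J := hs (by rw [Finset.coe_insert]; exact Or.inl rfl)
            refine ⟨max ν (cm i), h1.trans (le_max_left _ _), max_lt h2 (hcκ i hi), ?_⟩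
            intro j hj
            rcases Finset.mem_insert.1 hj with rfl | hj
            · exact (hcK j hi).trans (le_max_right _ _)
            · exact (h3 j hj).trans (le_max_left _ _)
        exact (hfin s ν hν0 hν).trans_lt hνκ
      let g : (∀ i : s, K i) → Ordinal.{u} := fun x =>
        if (f.1 (ex x)).rank < κ.ord then (f.1 (ex x)).rank else 0
      have hg : ∀ x, g x < κ.ord := by
        intro x
        simp only [g]
        split_ifs with h
        · exact h
        · exact (Cardinal.ord_pos).2 (aleph0_pos.trans hκ0)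
      have hsup : iSup g < κ.ord := by
        refine Ordinal.iSup_lt_of_lt_cof ?_ hg
        rw [hreg.cof_ord]
        exact hcard
      refine ⟨Order.succ (iSup g).card, ?_, ?_⟩
      · exact hκ.isSuccLimit.succ_lt (Cardinal.lt_ord.1 hsup)
      · filter_upwards [hf] with b hb
        obtain ⟨α, hα, hαb⟩ := mem_toZFSet_iff.1 hb
        rw [← hαb, toZFSet_mem_toZFSet_iff, Cardinal.lt_ord, Order.lt_succ_iff]
        refine Ordinal.card_le_card ?_
        have h1 : g (fun i => b i) = α := by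
          simp only [g]
          rw [← hex b, ← hαb, rank_toZFSet, if_pos hα]
        rw [← h1]
        exact Ordinal.le_iSup g (fun i => b i)
    · -- singular case
      rcases J.eq_empty_or_nonempty with hJe | ⟨i0, hi0⟩
      · obtain ⟨s, hs, hfs⟩ := f.2
        obtain ⟨b0, hb0⟩ := hf.exists
        obtain ⟨α, hα, hαb⟩ := mem_toZFSet_iff.1 hb0
        refine ⟨Order.succ α.card, hκ.isSuccLimit.succ_lt (Cardinal.lt_ord.1 hα), ?_⟩
        refine Filter.Eventually.of_forall fun b => ?_
        have : f.1 b = f.1 b0 := hfs b b0 fun i hi => by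
          have := hs hi
          rw [hJe] at this; exact absurd this (Set.notMem_empty _)
        rw [this, ← hαb, toZFSet_mem_toZFSet_iff, Cardinal.lt_ord]
        exact Order.lt_succ _
      · obtain ⟨S, hS, hS'⟩ := Order.exists_cof_eq κ.ord.ToType
        rw [Ordinal.cof_toType] at hS'
        obtain ⟨b0, hb0⟩ := hf.exists
        have hex : ∀ α < κ.ord, ∃ t : S, α ≤ (t.1.toOrd : Ordinal.{u}) := by
          intro α hα
          obtain ⟨t, ht, hαt⟩ := hS (ToType.mk ⟨α, hα⟩)
          refine ⟨⟨t, ht⟩, ?_⟩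
          have h1 := ToType.mk.symm.monotone hαt
          have h2 : (⟨α, hα⟩ : Set.Iio κ.ord) ≤ t.toOrd := by simpa using h1
          exact h2
        have hne : Nonempty S := by
          obtain ⟨α, hα, -⟩ := mem_toZFSet_iff.1 hb0
          exact ⟨(hex α hα).choose⟩
        have hh : Supp J fun b => Classical.epsilon fun t : S =>
            ∃ α : Ordinal.{u}, α ≤ (t.1.toOrd : Ordinal.{u}) ∧ f.1 b = α.toZFSet :=
          f.2.comp fun w => Classical.epsilon fun t : S =>
            ∃ α : Ordinal.{u}, α ≤ (t.1.toOrd : Ordinal.{u}) ∧ w = α.toZFSet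
        obtain ⟨t, ht⟩ := hh.exists_const (U := U) (μ := Order.succ κ.ord.cof) (by
          rw [Cardinal.lift_id, Cardinal.lift_id, hS']; exact Order.lt_succ _) (by
          intro i hi S hS hS'
          exact hcm i hi i rfl S (hS.trans_le (Order.succ_le_of_lt (hcof i hi))) hS')
        have htκ : (t.1.toOrd : Ordinal.{u}) < κ.ord := t.1.toOrd.2
        refine ⟨Order.succ (t.1.toOrd : Ordinal.{u}).card,
          hκ.isSuccLimit.succ_lt (Cardinal.lt_ord.1 htκ), ?_⟩
        filter_upwards [hf, ht] with b h1 h2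
        obtain ⟨α, hα, hαb⟩ := mem_toZFSet_iff.1 h1
        obtain ⟨t', ht'⟩ := hex α hα
        obtain ⟨β, hβ, hβb⟩ := Classical.epsilon_spec (p := fun t : S =>
            ∃ α : Ordinal.{u}, α ≤ (t.1.toOrd : Ordinal.{u}) ∧ f.1 b = α.toZFSet)
            ⟨t', α, ht', hαb.symm⟩
        rw [h2] at hβ
        rw [hβb, toZFSet_mem_toZFSet_iff, Cardinal.lt_ord, Order.lt_succ_iff]
        exact Ordinal.card_le_card hβ
  · intro c0 hc0κ
    let c : Cardinal.{u} := max c0 ℵ₀
    have hcκ' : c < κ := max_lt hc0κ hκ0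
    have hcc : ℵ₀ ≤ c := le_max_right _ _
    let A : Set I := {i | i ∈ J ∧ cm i ≤ c}
    have hA : #A < κ := hJ c hcκ'
    let W : Type u := Σ s : Finset A, ((∀ i : s, K i.1) → c.ord.ToType)
    let F : W → Fn K J := fun w => ⟨fun b => ((w.2 fun i => b i.1).toOrd : Ordinal.{u}).toZFSet,
      w.1.map (Function.Embedding.subtype _), by
        intro i hi
        rw [Finset.coe_map] at hi
        obtain ⟨a, _, rfl⟩ := hi
        exact a.2.1, fun b b' h => by
        have : (fun i : w.1 => b i.1) = fun i : w.1 => b' i.1 := by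
          funext i
          exact h _ (by rw [Finset.coe_map]; exact ⟨i.1, i.2, rfl⟩)
        show ((w.2 fun i => b i.1).toOrd : Ordinal.{u}).toZFSet =
          ((w.2 fun i => b' i.1).toOrd : Ordinal.{u}).toZFSet
        rw [this]⟩
    have hW : #W < κ := by
      have h1 : #W = Cardinal.sum fun s : Finset A => #((∀ i : s, K i.1) → c.ord.ToType) :=
        mk_sigma _
      have h2 : ∀ s : Finset A, #((∀ i : s, K i.1) → c.ord.ToType) ≤ 2 ^ c := by
        intro s
        rw [← Cardinal.power_def, mk_ord_toType]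
        have h3 : #(∀ i : s, K i.1) ≤ c := by
          rw [mk_pi]
          calc (Cardinal.prod fun i : s => #(K i.1)) ≤ Cardinal.prod fun _ : s => c :=
                prod_le_prod _ _ fun i => (hcK i.1.1 i.1.2.1).trans i.1.2.2
            _ = c ^ (#s : Cardinal.{u}) := by simp
            _ ≤ c := by
                rw [Cardinal.mk_coe_finset]
                exact power_nat_le hcc
        calc c ^ #(∀ i : s, K i.1) ≤ c ^ c :=
              Cardinal.power_le_power_left (aleph0_pos.trans_le hcc).ne' h3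
          _ = 2 ^ c := Cardinal.power_self_eq hcc
      have h3 : #W ≤ #(Finset A) * 2 ^ c := by
        rw [h1]
        refine (Cardinal.sum_le_sum _ _ h2).trans ?_
        rw [sum_const']
      refine h3.trans_lt (mul_lt_of_lt hκ0.le ?_ (hκ.isStrongPrelimit hcκ'))
      rcases finite_or_infinite A with hfin' | hinf
      · exact (Cardinal.mk_lt_aleph0 (α := Finset A)).trans hκ0
      · rw [mk_finset_of_infinite]; exact hA
    refine ⟨W, F, hW, fun f hf => ?_⟩
    obtain ⟨r, hr, hfr⟩ := f.2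
    let s : Finset I := r.filter (· ∈ A)
    let t : Finset I := r.filter (· ∉ A)
    have hrst : (r : Set I) ⊆ (s : Set I) ∪ t := by
      intro i hi
      have hir : i ∈ r := hi
      by_cases hiA : i ∈ A
      · left
        have : i ∈ s := Finset.mem_filter.2 ⟨hir, hiA⟩
        exact this
      · right
        have : i ∈ t := Finset.mem_filter.2 ⟨hir, hiA⟩
        exact this
    have hsA : ∀ i ∈ s, i ∈ A := fun i hi => (Finset.mem_filter.1 hi).2
    have hZne : Nonempty c.ord.ToType := by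
      rw [Ordinal.nonempty_toType_iff]
      exact (Cardinal.ord_pos.2 (aleph0_pos.trans_le hcc)).ne'
    let q : ZFSet.{u} → c.ord.ToType := fun w =>
      Classical.epsilon fun z : c.ord.ToType => w = (z.toOrd : Ordinal.{u}).toZFSet
    have hq : ∀ w ∈ c0.ord.toZFSet, w = ((q w).toOrd : Ordinal.{u}).toZFSet := by
      intro w hw
      obtain ⟨α, hα, rfl⟩ := mem_toZFSet_iff.1 hw
      refine Classical.epsilon_spec (p := fun z : c.ord.ToType =>
        α.toZFSet = (z.toOrd : Ordinal.{u}).toZFSet)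
        ⟨ToType.mk ⟨α, hα.trans_le (Cardinal.ord_le_ord.2 (le_max_left _ _))⟩, ?_⟩
      simp
    obtain ⟨v, hv, hv'⟩ := sep (U := U) (B := {i | i ∈ J ∧ c < cm i}) (μ := Order.succ c)
      (fun i hi S hS hS' => hcm i hi.1 i rfl S (hS.trans_le (Order.succ_le_of_lt hi.2)) hS')
      s t (by
        intro i hi
        have hit : i ∈ t := hi
        obtain ⟨h1, h2⟩ := Finset.mem_filter.1 hit
        refine ⟨hr h1, ?_⟩
        by_contra hcon
        exact h2 ⟨hr h1, not_lt.1 hcon⟩)
      ((hfin s c hcc fun i hi => (hcK i (hsA i hi).1).trans (hsA i hi).2).trans_lt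
        (Order.lt_succ c))
      (Z := c.ord.ToType) (by
        rw [Cardinal.lift_id, Cardinal.lift_id, mk_ord_toType]; exact Order.lt_succ c)
      (fun b => q (f.1 b)) (fun b b' h => by
        show q (f.1 b) = q (f.1 b')
        rw [hfr b b' fun i hi => h i (hrst hi)])
    obtain ⟨b0⟩ := exists_point U
    let s' : Finset A := s.subtype (· ∈ A)
    let ex : (∀ i : s', K i.1) → (∀ i, K i) := fun x i =>
      if h : ∃ hA : i ∈ A, (⟨i, hA⟩ : A) ∈ s' then x ⟨⟨i, h.1⟩, h.2⟩ else b0 i
    refine ⟨⟨s', fun x => v (ex x)⟩, ?_⟩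
    filter_upwards [hv', hf] with b h1 h2
    have h3 := h1 b
    rw [mrg_self] at h3
    have h4 : v (ex fun i => b i.1) = v b := by
      refine hv _ _ fun i hi => ?_
      have his : i ∈ s := hi
      have h5 : ∃ hA : i ∈ A, (⟨i, hA⟩ : A) ∈ s' := ⟨hsA i his, by simpa [s'] using his⟩
      simp only [ex]
      rw [dif_pos h5]
    show f.1 b = ((v (ex fun i => b i.1)).toOrd : Ordinal.{u}).toZFSet
    rw [h4, ← h3]
    exact hq _ h2

end Pool.Agent.X208.IU
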